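import Mathlib

/-!
General definitions for closed linear groups: Lie algebra, adjoint representation, Zariski density,
Cartan subgroups, finite covolume.
-/

set_option autoImplicit false

open Matrix MeasureTheory
open scoped Pointwise ENNReal

namespace Pool.Agent.H56R2.CL

/-- The space `𝔤` of real `n × n` matrices is the Lie algebra of the group `G` of real matrices: it
consists of the matrices `X` such that `exp (t X)` lies in `G` for every real `t`. -/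
def IsLieAlgebraOf {n : ℕ} (𝔤 : Submodule ℝ (Matrix (Fin n) (Fin n) ℝ)) (G : Subgroup (GL (Fin n) ℝ)) : Prop :=
  ∀ X : Matrix (Fin n) (Fin n) ℝ, X ∈ 𝔤 ↔ ∀ t : ℝ, ∃ g ∈ G, (g : Matrix (Fin n) (Fin n) ℝ) = NormedSpace.exp (t • X)

/-- The space `𝔤` of matrices is a simple Lie algebra: it is closed under the bracket
`[X, Y] = XY - YX`, it is not abelian, and its only ideals are `0` and `𝔤`. -/
def IsSimpleLieAlgebra {n : ℕ} (𝔤 : Submodule ℝ (Matrix (Fin n) (Fin n) ℝ)) : Prop :=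
  (∀ X ∈ 𝔤, ∀ Y ∈ 𝔤, X * Y - Y * X ∈ 𝔤) ∧ (∃ X ∈ 𝔤, ∃ Y ∈ 𝔤, X * Y - Y * X ≠ 0) ∧
    ∀ 𝔞 : Submodule ℝ (Matrix (Fin n) (Fin n) ℝ), 𝔞 ≤ 𝔤 → (∀ X ∈ 𝔤, ∀ Y ∈ 𝔞, X * Y - Y * X ∈ 𝔞) → 𝔞 = ⊥ ∨ 𝔞 = 𝔤

/-- The group `G` of real matrices, with Lie algebra `𝔤`, is closed in `GLₙ(ℝ)` and connected, and
`𝔤` is simple: `G` is a connected simple real Lie group. -/
def IsSimpleLieGroup {n : ℕ} (𝔤 : Submodule ℝ (Matrix (Fin n) (Fin n) ℝ)) (G : Subgroup (GL (Fin n) ℝ)) : Prop :=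
  IsClosed (G : Set (GL (Fin n) ℝ)) ∧ IsConnected (G : Set (GL (Fin n) ℝ)) ∧
    IsLieAlgebraOf 𝔤 G ∧ IsSimpleLieAlgebra 𝔤

/-- Conjugation by the invertible matrix `g`. -/
def conj {n : ℕ} (g : GL (Fin n) ℝ) : Matrix (Fin n) (Fin n) ℝ →ₗ[ℝ] Matrix (Fin n) (Fin n) ℝ where
  toFun X := (g : Matrix (Fin n) (Fin n) ℝ) * X * ((g⁻¹ : GL (Fin n) ℝ) : Matrix (Fin n) (Fin n) ℝ)
  map_add' X Y := by simp [mul_add, add_mul]
  map_smul' c X := by simp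

/-- the Lie algebra of `G` is stable under conjugation by the elements of `G` -/
lemma conj_mem {n : ℕ} {𝔤 : Submodule ℝ (Matrix (Fin n) (Fin n) ℝ)} {G : Subgroup (GL (Fin n) ℝ)}
    (h : IsLieAlgebraOf 𝔤 G) {g : GL (Fin n) ℝ} (hg : g ∈ G) {X : Matrix (Fin n) (Fin n) ℝ} (hX : X ∈ 𝔤) :
    conj g X ∈ 𝔤 := by
  rw [h] at hX ⊢
  intro t
  obtain ⟨x, hx, hxe⟩ := hX t
  refine ⟨g * x * g⁻¹, G.mul_mem (G.mul_mem hg hx) (G.inv_mem hg), ?_⟩
  have h1 : NormedSpace.exp (t • conj g X) = (g : Matrix (Fin n) (Fin n) ℝ) * NormedSpace.exp (t • X) *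
      ((g : Matrix (Fin n) (Fin n) ℝ))⁻¹ := by
    rw [← Matrix.exp_conj _ _ g.isUnit]
    congr 1
    simp [conj, Matrix.mul_assoc]
  rw [h1, ← hxe]
  simp

/-- The adjoint representation `Ad : G → GL(𝔤) ⊆ End(𝔤)`, `Ad(g) X = g X g⁻¹`, of a group of real
matrices `G` with Lie algebra `𝔤`. -/
def Ad {n : ℕ} {𝔤 : Submodule ℝ (Matrix (Fin n) (Fin n) ℝ)} {G : Subgroup (GL (Fin n) ℝ)}
    (h : IsLieAlgebraOf 𝔤 G) (g : G) : Module.End ℝ 𝔤 :=
  (conj (g : GL (Fin n) ℝ)).restrict (fun _ hX => conj_mem h g.2 hX)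

/-- The polynomial functions on a real vector space `V`: the algebra of functions generated by the
linear functionals. -/
def polyFun (V : Type) [AddCommGroup V] [Module ℝ V] : Subalgebra ℝ (V → ℝ) :=
  Algebra.adjoin ℝ {f | ∃ L : V →ₗ[ℝ] ℝ, f = L}

/-- The subgroup `Γ` of `G` is Zariski dense in the adjoint representation: every polynomial
function on `End(𝔤)` that vanishes on `Ad(Γ)` vanishes on `Ad(G)`. -/
def ZariskiDense {n : ℕ} {𝔤 : Submodule ℝ (Matrix (Fin n) (Fin n) ℝ)} {G : Subgroup (GL (Fin n) ℝ)}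
    (h : IsLieAlgebraOf 𝔤 G) (Γ : Subgroup (GL (Fin n) ℝ)) : Prop :=
  ∀ f ∈ polyFun (Module.End ℝ 𝔤), (∀ γ : G, (γ : GL (Fin n) ℝ) ∈ Γ → f (Ad h γ) = 0) →
    ∀ g : G, f (Ad h g) = 0

/-- A group of real matrices is diagonalizable over `ℝ` if one change of basis makes all its
elements diagonal. -/
def IsRDiagonalizable {n : ℕ} (A : Subgroup (GL (Fin n) ℝ)) : Prop :=
  ∃ P : GL (Fin n) ℝ, ∀ a ∈ A, ((P⁻¹ * a * P : GL (Fin n) ℝ) : Matrix (Fin n) (Fin n) ℝ).IsDiag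

/-- `A` is a Cartan subgroup of `G`: a maximal connected subgroup of `G` that is diagonalizable
over `ℝ`. -/
def IsCartanSubgroup {n : ℕ} (G A : Subgroup (GL (Fin n) ℝ)) : Prop :=
  (A ≤ G ∧ IsConnected (A : Set (GL (Fin n) ℝ)) ∧ IsRDiagonalizable A) ∧
    ∀ B : Subgroup (GL (Fin n) ℝ), B ≤ G → IsConnected (B : Set (GL (Fin n) ℝ)) →
      IsRDiagonalizable B → A ≤ B → B = A

/-- The subgroup `A` of `G` is diagonalizable over `ℝ` in the adjoint representation of `G`: the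
common eigenvectors of the operators `Ad(a)`, `a ∈ A`, span the Lie algebra `𝔤` of `G`. -/
def IsAdDiagonalizable {n : ℕ} {𝔤 : Submodule ℝ (Matrix (Fin n) (Fin n) ℝ)} {G : Subgroup (GL (Fin n) ℝ)}
    (h : IsLieAlgebraOf 𝔤 G) (A : Subgroup (GL (Fin n) ℝ)) : Prop :=
  Submodule.span ℝ {X : 𝔤 | ∀ a : G, (a : GL (Fin n) ℝ) ∈ A → ∃ c : ℝ, Ad h a X = c • X} = ⊤

/-- `A` is a Cartan subgroup of `G` in the adjoint sense: a maximal connected subgroup of `G` that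
is diagonalizable over `ℝ` in the adjoint representation of `G`. -/
def IsAdCartanSubgroup {n : ℕ} {𝔤 : Submodule ℝ (Matrix (Fin n) (Fin n) ℝ)} {G : Subgroup (GL (Fin n) ℝ)}
    (h : IsLieAlgebraOf 𝔤 G) (A : Subgroup (GL (Fin n) ℝ)) : Prop :=
  (A ≤ G ∧ IsConnected (A : Set (GL (Fin n) ℝ)) ∧ IsAdDiagonalizable h A) ∧
    ∀ B : Subgroup (GL (Fin n) ℝ), B ≤ G → IsConnected (B : Set (GL (Fin n) ℝ)) →
      IsAdDiagonalizable h B → A ≤ B → B = A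

/-- `A` is isomorphic, as a topological group, to the additive group `ℝʳ`. -/
def IsVectorGroup {n : ℕ} (A : Subgroup (GL (Fin n) ℝ)) (r : ℕ) : Prop :=
  Nonempty (Multiplicative (Fin r → ℝ) ≃ₜ* A)

/-- `Γ` is a discrete subgroup of `G`. -/
def IsDiscreteSubgroup {n : ℕ} (G Γ : Subgroup (GL (Fin n) ℝ)) : Prop :=
  Γ ≤ G ∧ DiscreteTopology Γ

/-- The quotient `A/(A ∩ Γ)` is compact. -/
def IsCocompactIn {n : ℕ} (A Γ : Subgroup (GL (Fin n) ℝ)) : Prop :=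
  CompactSpace (A ⧸ Γ.subgroupOf A)

/-- The quotient `G/Γ` carries a finite nonzero `G`-invariant Borel measure. -/
def HasFiniteInvariantMeasure {n : ℕ} (G Γ : Subgroup (GL (Fin n) ℝ)) : Prop :=
  ∃ μ : @Measure (G ⧸ Γ.subgroupOf G) (borel (G ⧸ Γ.subgroupOf G)),
    μ ≠ 0 ∧ μ Set.univ < ∞ ∧
    ∀ (g : G) (s : Set (G ⧸ Γ.subgroupOf G)),
      MeasurableSet[borel (G ⧸ Γ.subgroupOf G)] s → μ (g • s) = μ s

/-- For some left Haar measure `μ` of `G` there is a Borel set `F ⊆ G` of finite measure whose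
translates by `Γ` cover `G`. -/
def HasFiniteCovolume {n : ℕ} (G Γ : Subgroup (GL (Fin n) ℝ)) : Prop :=
  ∃ μ : @Measure G (borel G), @Measure.IsHaarMeasure G _ _ (borel G) μ ∧
    ∃ F : Set G, MeasurableSet[borel G] F ∧ μ F < ∞ ∧
      ∀ g : G, ∃ γ : G, (γ : GL (Fin n) ℝ) ∈ Γ ∧ γ * g ∈ F

end Pool.Agent.H56R2.CL
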