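import Mathlib

/-!
A reflection group acting on `ℝ⁵` with a form of signature `(3,2)`; its chamber.
-/

set_option autoImplicit false

noncomputable section

open Matrix

namespace Pool.Agent.H56R2.CL

/-- the bilinear form -/
def bil (x y : Fin 5 → ℝ) : ℝ := x 0 * y 1 + x 1 * y 0 + x 2 * y 3 + x 3 * y 2 + 2 * (x 4 * y 4)

/-- the matrix of the form -/
def S : Matrix (Fin 5) (Fin 5) ℝ :=
  !![0, 1, 0, 0, 0; 1, 0, 0, 0, 0; 0, 0, 0, 1, 0; 0, 0, 1, 0, 0; 0, 0, 0, 0, 2]

/-- the roots -/
def root : Fin 5 → Fin 5 → ℝ :=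
  ![![1, 1, 0, 0, 0], ![-3/2, -2/3, 0, 0, 0], ![0, 0, 1, 1, 0], ![0, 0, -3/2, -2/3, 0],
    ![-6, 4, -6, 4, 7]]

lemma bil_symm (x y : Fin 5 → ℝ) : bil x y = bil y x := by simp only [bil]; ring

lemma bil_add_left (x y z : Fin 5 → ℝ) : bil (x + y) z = bil x z + bil y z := by
  simp only [bil, Pi.add_apply]; ring

lemma bil_sub_left (x y z : Fin 5 → ℝ) : bil (x - y) z = bil x z - bil y z := by
  simp only [bil, Pi.sub_apply]; ring

lemma bil_smul_left (c : ℝ) (x z : Fin 5 → ℝ) : bil (c • x) z = c * bil x z := by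
  simp only [bil, Pi.smul_apply, smul_eq_mul]; ring

lemma bil_eq (x y : Fin 5 → ℝ) : bil x y = x ⬝ᵥ (S *ᵥ y) := by
  simp [bil, S, dotProduct, Fin.sum_univ_five, Matrix.mulVec, Matrix.cons_val_zero]
  ring

/-- the Gram matrix of the roots -/
lemma bil_root_self (i : Fin 5) : bil (root i) (root i) = 2 := by
  fin_cases i <;> simp [bil, root] <;> norm_num

lemma bil_root_le (i j : Fin 5) (h : i ≠ j) :
    bil (root i) (root j) = 0 ∨ bil (root i) (root j) ≤ -2 := by
  fin_cases i <;> fin_cases j <;>
    first | exact absurd rfl h | (simp [bil, root]; done) | (simp [bil, root]; norm_num)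

/-- the reflection in the root `i` -/
def refl (i : Fin 5) : Matrix (Fin 5) (Fin 5) ℝ := 1 - vecMulVec (root i) (S *ᵥ root i)

lemma refl_mulVec (i : Fin 5) (x : Fin 5 → ℝ) :
    refl i *ᵥ x = x - bil x (root i) • root i := by
  rw [refl, sub_mulVec, one_mulVec, vecMulVec_mulVec, bil_eq]
  congr 1
  ext j
  simp [mul_comm, dotProduct_comm]

lemma bil_refl (i j : Fin 5) (x : Fin 5 → ℝ) :
    bil (refl i *ᵥ x) (root j) = bil x (root j) - bil x (root i) * bil (root i) (root j) := by
  rw [refl_mulVec, bil_sub_left, bil_smul_left]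

lemma refl_sq (i : Fin 5) : refl i * refl i = 1 := by
  apply Matrix.ext_of_mulVec_single
  intro k
  rw [← mulVec_mulVec, refl_mulVec, refl_mulVec, bil_sub_left, bil_smul_left, bil_root_self,
    one_mulVec]
  ext l
  simp only [Pi.sub_apply, Pi.smul_apply, smul_eq_mul]
  ring

lemma refl_comm {i j : Fin 5} (h : bil (root i) (root j) = 0) :
    refl i * refl j = refl j * refl i := by
  have h' : bil (root j) (root i) = 0 := by rw [bil_symm]; exact h
  apply Matrix.ext_of_mulVec_single
  intro k
  rw [← mulVec_mulVec, ← mulVec_mulVec, refl_mulVec i, refl_mulVec j, refl_mulVec j, refl_mulVec i,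
    bil_sub_left, bil_smul_left, h', bil_sub_left, bil_smul_left, h]
  ext l
  simp only [Pi.sub_apply, Pi.smul_apply, smul_eq_mul]
  ring

/-- product of a word in the reflections -/
def wd (L : List (Fin 5)) : Matrix (Fin 5) (Fin 5) ℝ := (L.map refl).prod

@[simp] lemma wd_nil : wd [] = 1 := rfl
@[simp] lemma wd_cons (i : Fin 5) (L : List (Fin 5)) : wd (i :: L) = refl i * wd L := by
  simp [wd]

/-- the open fundamental chamber -/
def chamber : Set (Fin 5 → ℝ) := {x | ∀ i, 0 < bil x (root i)}

/-- the region on which legal moves operate -/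
def region (x : Fin 5 → ℝ) : Prop :=
  (∀ i, bil x (root i) ≠ 0) ∧
    ∀ i j, i ≠ j → bil (root i) (root j) ≠ 0 → 0 < bil x (root i) + bil x (root j)

lemma region_of_chamber {x : Fin 5 → ℝ} (h : x ∈ chamber) : region x :=
  ⟨fun i => (h i).ne', fun i j _ _ => add_pos (h i) (h j)⟩

lemma region_refl {x : Fin 5 → ℝ} (h : region x) {j : Fin 5} (hj : 0 < bil x (root j)) :
    region (refl j *ᵥ x) := by
  have key : ∀ i, i ≠ j → bil (root j) (root i) ≠ 0 →
      bil (root j) (root i) ≤ -2 ∧ 0 < bil x (root i) + bil x (root j) := by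
    intro i hij hne
    refine ⟨(bil_root_le j i (Ne.symm hij)).resolve_left hne, ?_⟩
    exact h.2 i j hij (by rw [bil_symm]; exact hne)
  constructor
  · intro i
    rw [bil_refl]
    by_cases hij : i = j
    · subst hij
      rw [bil_root_self]
      nlinarith
    · by_cases hne : bil (root j) (root i) = 0
      · rw [hne]; simpa using h.1 i
      · obtain ⟨h1, h2⟩ := key i hij hne
        nlinarith
  · intro i k hik hne
    rw [bil_refl, bil_refl]
    by_cases hij : i = j
    · subst hij
      obtain ⟨h1, h2⟩ := key k (Ne.symm hik) hne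
      rw [bil_root_self]
      nlinarith
    · by_cases hkj : k = j
      · subst hkj
        obtain ⟨h1, h2⟩ := key i hij (by rw [bil_symm]; exact hne)
        rw [bil_root_self]
        nlinarith
      · have h3 := h.2 i k hik hne
        have h4 : bil (root j) (root i) ≤ 0 := by
          rcases bil_root_le j i (Ne.symm hij) with h | h
          · exact h.le
          · linarith
        have h5 : bil (root j) (root k) ≤ 0 := by
          rcases bil_root_le j k (Ne.symm hkj) with h | h
          · exact h.le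
          · linarith
        nlinarith

/-- all moves of the word are legal when started at `x` -/
def Legal (x : Fin 5 → ℝ) : List (Fin 5) → Prop
  | [] => True
  | j :: L => Legal x L ∧ 0 < bil (wd L *ᵥ x) (root j)

lemma region_of_legal {x : Fin 5 → ℝ} (hx : x ∈ chamber) :
    ∀ L : List (Fin 5), Legal x L → region (wd L *ᵥ x)
  | [], _ => by simpa using region_of_chamber hx
  | j :: L, h => by
    rw [wd_cons, ← mulVec_mulVec]
    exact region_refl (region_of_legal hx L h.1) h.2

lemma cancel {x : Fin 5 → ℝ} (hx : x ∈ chamber) (j : Fin 5) :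
    ∀ L : List (Fin 5), Legal x L → bil (wd L *ᵥ x) (root j) < 0 →
      ∃ L' : List (Fin 5), Legal x L' ∧ wd L = refl j * wd L'
  | [], _, h => by
    have := hx j
    simp at h
    linarith
  | i :: L, hL, h => by
    by_cases hij : i = j
    · subst hij
      exact ⟨L, hL.1, wd_cons _ _⟩
    · rw [wd_cons, ← mulVec_mulVec, bil_refl] at h
      have hr := region_of_legal hx L hL.1
      have hcomm : bil (root i) (root j) = 0 := by
        by_contra hne
        have h1 := (bil_root_le i j hij).resolve_left hne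
        have h2 := hr.2 i j hij hne
        have h3 := hL.2
        nlinarith
      rw [hcomm, mul_zero, sub_zero] at h
      obtain ⟨L', hL', he⟩ := cancel hx j L hL.1 h
      refine ⟨i :: L', ⟨hL', ?_⟩, ?_⟩
      · have h3 := hL.2
        have h4 : wd L' = refl j * wd L := by
          rw [he, ← Matrix.mul_assoc, refl_sq, Matrix.one_mul]
        rw [h4, ← mulVec_mulVec, bil_refl, bil_symm (root j) (root i), hcomm, mul_zero, sub_zero]
        exact h3
      · rw [wd_cons, wd_cons, he, ← Matrix.mul_assoc, ← Matrix.mul_assoc, refl_comm hcomm]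

lemma exists_legal {x : Fin 5 → ℝ} (hx : x ∈ chamber) :
    ∀ L : List (Fin 5), ∃ L' : List (Fin 5), Legal x L' ∧ wd L' = wd L
  | [] => ⟨[], trivial, rfl⟩
  | j :: L => by
    obtain ⟨L₁, h1, h2⟩ := exists_legal hx L
    rcases lt_trichotomy (bil (wd L₁ *ᵥ x) (root j)) 0 with h | h | h
    · obtain ⟨L', hL', he⟩ := cancel hx j L₁ h1 h
      refine ⟨L', hL', ?_⟩
      rw [wd_cons, ← h2, he, ← Matrix.mul_assoc, refl_sq, Matrix.one_mul]
    · exact absurd h ((region_of_legal hx L₁ h1).1 j)
    · exact ⟨j :: L₁, ⟨h1, h⟩, by rw [wd_cons, wd_cons, h2]⟩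

/-- **Tits' lemma**: a nontrivial product of the reflections moves the chamber off itself. -/
theorem wd_eq_one {x : Fin 5 → ℝ} (hx : x ∈ chamber) (L : List (Fin 5))
    (h : wd L *ᵥ x ∈ chamber) : wd L = 1 := by
  obtain ⟨L', h1, h2⟩ := exists_legal hx L
  rw [← h2] at h ⊢
  cases L' with
  | nil => rfl
  | cons j L₁ =>
    exfalso
    have h3 := h j
    rw [wd_cons, ← mulVec_mulVec, bil_refl, bil_root_self] at h3
    have h4 := h1.2
    linarith

end Pool.Agent.H56R2.CL
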