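import Mathlib
import Pool.Agent.H56R2.CL.Defs
import Pool.Agent.H56R2.CL.Refl

/-!
The group `O(q)`, its identity component, and the reflection subgroup.
-/

set_option autoImplicit false

noncomputable section

open Matrix

namespace Pool.Agent.H56R2.CL

/-- inverse of the Gram matrix -/
def Si : Matrix (Fin 5) (Fin 5) ℝ :=
  !![0, 1, 0, 0, 0; 1, 0, 0, 0, 0; 0, 0, 0, 1, 0; 0, 0, 1, 0, 0; 0, 0, 0, 0, 1/2]

lemma S_mul_Si : S * Si = 1 := by
  ext i j
  fin_cases i <;> fin_cases j <;> simp [S, Si, Matrix.mul_apply, Fin.sum_univ_five]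

lemma Si_mul_S : Si * S = 1 := by
  ext i j
  fin_cases i <;> fin_cases j <;> simp [S, Si, Matrix.mul_apply, Fin.sum_univ_five]

lemma S_transpose : Sᵀ = S := by
  ext i j
  fin_cases i <;> fin_cases j <;> simp [S]

/-- The orthogonal group of the quadratic form `q(x) = x₀x₁ + x₂x₃ + x₄²` (whose polar form has
Gram matrix `S`). -/
def Oq : Subgroup (GL (Fin 5) ℝ) where
  carrier := {g | (g : Matrix (Fin 5) (Fin 5) ℝ)ᵀ * S * g = S}
  one_mem' := by simp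
  mul_mem' := by
    intro a b ha hb
    simp only [Set.mem_setOf_eq, GeneralLinearGroup.coe_mul, transpose_mul] at *
    calc (b : Matrix (Fin 5) (Fin 5) ℝ)ᵀ * (a : Matrix (Fin 5) (Fin 5) ℝ)ᵀ * S *
        ((a : Matrix (Fin 5) (Fin 5) ℝ) * b)
        = (b : Matrix (Fin 5) (Fin 5) ℝ)ᵀ * ((a : Matrix (Fin 5) (Fin 5) ℝ)ᵀ * S * a) * b := by
          simp only [Matrix.mul_assoc]
      _ = S := by rw [ha, hb]
  inv_mem' := by
    intro a ha
    simp only [Set.mem_setOf_eq] at *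
    have h1 : (a : Matrix (Fin 5) (Fin 5) ℝ) * ((a⁻¹ : GL (Fin 5) ℝ) : Matrix (Fin 5) (Fin 5) ℝ)
        = 1 := by simp [← GeneralLinearGroup.coe_mul]
    set b := ((a⁻¹ : GL (Fin 5) ℝ) : Matrix (Fin 5) (Fin 5) ℝ) with hb
    calc bᵀ * S * b = bᵀ * ((a : Matrix (Fin 5) (Fin 5) ℝ)ᵀ * S * a) * b := by rw [ha]
      _ = ((a : Matrix (Fin 5) (Fin 5) ℝ) * b)ᵀ * S * ((a : Matrix (Fin 5) (Fin 5) ℝ) * b) := by
          simp only [transpose_mul, Matrix.mul_assoc]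
      _ = S := by rw [h1]; simp

lemma mem_Oq {g : GL (Fin 5) ℝ} :
    g ∈ Oq ↔ (g : Matrix (Fin 5) (Fin 5) ℝ)ᵀ * S * g = S := Iff.rfl

/-- The identity component of `O(q)`. -/
def SO32 : Subgroup (GL (Fin 5) ℝ) := (Subgroup.connectedComponentOfOne Oq).map Oq.subtype

lemma inv_left {M : Matrix (Fin 5) (Fin 5) ℝ} (h : Mᵀ * S * M = S) : (Si * Mᵀ * S) * M = 1 := by
  calc (Si * Mᵀ * S) * M = Si * (Mᵀ * S * M) := by simp only [Matrix.mul_assoc]
    _ = 1 := by rw [h, Si_mul_S]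

lemma inv_right {M : Matrix (Fin 5) (Fin 5) ℝ} (h : Mᵀ * S * M = S) : M * (Si * Mᵀ * S) = 1 :=
  mul_eq_one_comm.mp (inv_left h)

/-- an isometry of the form as an element of `GL₅` -/
def mkG (M : Matrix (Fin 5) (Fin 5) ℝ) (h : Mᵀ * S * M = S) : GL (Fin 5) ℝ :=
  ⟨M, Si * Mᵀ * S, inv_right h, inv_left h⟩

@[simp] lemma coe_mkG (M : Matrix (Fin 5) (Fin 5) ℝ) (h : Mᵀ * S * M = S) :
    (mkG M h : Matrix (Fin 5) (Fin 5) ℝ) = M := rfl

lemma mkG_mem (M : Matrix (Fin 5) (Fin 5) ℝ) (h : Mᵀ * S * M = S) : mkG M h ∈ Oq := h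

lemma inv_val {g : GL (Fin 5) ℝ} (hg : g ∈ Oq) :
    ((g⁻¹ : GL (Fin 5) ℝ) : Matrix (Fin 5) (Fin 5) ℝ) =
      Si * (g : Matrix (Fin 5) (Fin 5) ℝ)ᵀ * S := by
  have h1 := inv_left (mem_Oq.mp hg)
  have h2 : (g : Matrix (Fin 5) (Fin 5) ℝ) * ((g⁻¹ : GL (Fin 5) ℝ) : Matrix (Fin 5) (Fin 5) ℝ)
        = 1 := by simp [← GeneralLinearGroup.coe_mul]
  calc ((g⁻¹ : GL (Fin 5) ℝ) : Matrix (Fin 5) (Fin 5) ℝ)
      = ((Si * (g : Matrix (Fin 5) (Fin 5) ℝ)ᵀ * S) * g) *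
        ((g⁻¹ : GL (Fin 5) ℝ) : Matrix (Fin 5) (Fin 5) ℝ) := by rw [h1, Matrix.one_mul]
    _ = _ := by rw [Matrix.mul_assoc, h2, Matrix.mul_one]

lemma SO32_le_Oq : SO32 ≤ Oq := by
  rintro _ ⟨g, _, rfl⟩
  exact g.2

/-- the end point of a path in `O(q)` starting at `1` lies in the identity component -/
lemma mem_SO32_of_path (f : ℝ → Matrix (Fin 5) (Fin 5) ℝ) (hf : Continuous f) (h0 : f 0 = 1)
    (hS : ∀ t, (f t)ᵀ * S * f t = S) (t : ℝ) : mkG (f t) (hS t) ∈ SO32 := by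
  let F : ℝ → Oq := fun t => ⟨mkG (f t) (hS t), mkG_mem _ _⟩
  have hF : Continuous F := by
    apply Continuous.subtype_mk
    rw [Units.continuous_iff]
    refine ⟨hf, ?_⟩
    change Continuous fun t => Si * (f t)ᵀ * S
    fun_prop
  have h1 : F 0 = 1 := by
    apply Subtype.ext
    apply Units.ext
    exact h0
  have h2 : IsPreconnected (Set.range F) := isPreconnected_range hF
  have h3 : Set.range F ⊆ connectedComponent (1 : Oq) :=
    h2.subset_connectedComponent ⟨0, h1⟩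
  exact ⟨F t, h3 ⟨t, rfl⟩, rfl⟩

lemma SO32_connected : IsConnected (SO32 : Set (GL (Fin 5) ℝ)) := by
  have : (SO32 : Set (GL (Fin 5) ℝ)) = Subtype.val '' (connectedComponent (1 : Oq)) := rfl
  rw [this]
  exact isConnected_connectedComponent.image _ continuous_subtype_val.continuousOn

lemma Oq_closed : IsClosed (Oq : Set (GL (Fin 5) ℝ)) := by
  have h : Continuous fun g : GL (Fin 5) ℝ =>
      (g : Matrix (Fin 5) (Fin 5) ℝ)ᵀ * S * (g : Matrix (Fin 5) (Fin 5) ℝ) := by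
    have h1 : Continuous fun g : GL (Fin 5) ℝ => (g : Matrix (Fin 5) (Fin 5) ℝ) :=
      Units.continuous_val
    fun_prop
  exact isClosed_eq h continuous_const

lemma SO32_closed : IsClosed (SO32 : Set (GL (Fin 5) ℝ)) := by
  have : (SO32 : Set (GL (Fin 5) ℝ)) = Subtype.val '' (connectedComponent (1 : Oq)) := rfl
  rw [this]
  exact (Oq_closed.isClosedEmbedding_subtypeVal).isClosedMap _ isClosed_connectedComponent

end Pool.Agent.H56R2.CL
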