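import Mathlib
import Pool.Agent.H56R2.CL.Grp

/-!
The group `Γ` of even words in the reflections; unipotent one-parameter groups.
-/

set_option autoImplicit false

noncomputable section

open Matrix

namespace Pool.Agent.H56R2.CL

/-- `1 + t N + t² N² / 2` -/
def E (N : Matrix (Fin 5) (Fin 5) ℝ) (t : ℝ) : Matrix (Fin 5) (Fin 5) ℝ :=
  1 + t • N + (t ^ 2 / 2) • (N * N)

/-- skew with respect to the form -/
def Skew (N : Matrix (Fin 5) (Fin 5) ℝ) : Prop := Nᵀ * S = - (S * N)

lemma E_zero (N : Matrix (Fin 5) (Fin 5) ℝ) : E N 0 = 1 := by simp [E]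

lemma E_add {N : Matrix (Fin 5) (Fin 5) ℝ} (h : N * N * N = 0) (s t : ℝ) :
    E N s * E N t = E N (s + t) := by
  have h4 : N * N * (N * N) = 0 := by rw [← Matrix.mul_assoc, h, Matrix.zero_mul]
  have h3 : N * (N * N) = 0 := by rw [← Matrix.mul_assoc, h]
  simp only [E, Matrix.add_mul, Matrix.mul_add, Matrix.one_mul, Matrix.mul_one, Matrix.smul_mul,
    Matrix.mul_smul, h, h3, h4, smul_zero, add_zero, smul_smul]
  module

lemma E_skew {N : Matrix (Fin 5) (Fin 5) ℝ} (h : Skew N) (t : ℝ) :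
    (E N t)ᵀ * S = S * E N (-t) := by
  have h2 : (N * N)ᵀ * S = S * (N * N) := by
    rw [transpose_mul, Matrix.mul_assoc, h, Matrix.mul_neg, ← Matrix.mul_assoc, h]
    simp [Matrix.mul_assoc]
  simp only [E, transpose_add, transpose_smul, transpose_one, Matrix.add_mul, Matrix.mul_add,
    Matrix.smul_mul, Matrix.mul_smul, Matrix.one_mul, Matrix.mul_one]
  rw [h2, h]
  simp

lemma E_isom {N : Matrix (Fin 5) (Fin 5) ℝ} (h3 : N * N * N = 0) (h : Skew N) (t : ℝ) :
    (E N t)ᵀ * S * E N t = S := by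
  rw [E_skew h, Matrix.mul_assoc, E_add h3]
  simp [E_zero]

lemma E_cont (N : Matrix (Fin 5) (Fin 5) ℝ) : Continuous (E N) := by
  unfold E
  fun_prop

lemma E_pow {N : Matrix (Fin 5) (Fin 5) ℝ} (h : N * N * N = 0) (t : ℝ) (n : ℕ) :
    (E N t) ^ n = E N (n * t) := by
  induction n with
  | zero => simp [E_zero]
  | succ n ih => rw [pow_succ, ih, E_add h]; congr 1; push_cast; ring

/-- the skew matrix `x ↦ B(x,b) a - B(x,a) b` -/
def wedge (a b : Fin 5 → ℝ) : Matrix (Fin 5) (Fin 5) ℝ :=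
  vecMulVec a (S *ᵥ b) - vecMulVec b (S *ᵥ a)

lemma vmv (a b x : Fin 5 → ℝ) : vecMulVec a (S *ᵥ b) *ᵥ x = bil x b • a := by
  rw [vecMulVec_mulVec, bil_eq]
  ext j
  simp [mul_comm, dotProduct_comm]

lemma wedge_mulVec (a b x : Fin 5 → ℝ) : wedge a b *ᵥ x = bil x b • a - bil x a • b := by
  rw [wedge, sub_mulVec, vmv, vmv]

lemma wedge_skew (a b : Fin 5 → ℝ) : Skew (wedge a b) := by
  unfold Skew wedge
  simp only [transpose_sub, transpose_vecMulVec, Matrix.sub_mul, Matrix.mul_sub, neg_sub,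
    Matrix.vecMulVec_mul, Matrix.mul_vecMulVec]
  have h : ∀ x : Fin 5 → ℝ, x ᵥ* S = S *ᵥ x := by
    intro x
    rw [← mulVec_transpose, S_transpose]
  rw [h, h]

lemma bil_wedge (a b x y : Fin 5 → ℝ) :
    bil (wedge a b *ᵥ x) y = bil x b * bil a y - bil x a * bil b y := by
  rw [wedge_mulVec, bil_sub_left, bil_smul_left, bil_smul_left]

/-- if the plane spanned by `a, b` is degenerate then the wedge is nilpotent -/
lemma wedge_nilp {a b : Fin 5 → ℝ} (h : bil a a * bil b b = bil a b ^ 2) :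
    wedge a b * wedge a b * wedge a b = 0 := by
  apply Matrix.ext_of_mulVec_single
  intro k
  set x : Fin 5 → ℝ := Pi.single k 1
  rw [zero_mulVec, ← mulVec_mulVec, ← mulVec_mulVec, wedge_mulVec a b
    (wedge a b *ᵥ (wedge a b *ᵥ x))]
  simp only [bil_wedge]
  rw [bil_symm b a]
  have h' : bil a b ^ 2 - bil a a * bil b b = 0 := by rw [h]; ring
  ext l
  simp only [Pi.sub_apply, Pi.smul_apply, smul_eq_mul, Pi.zero_apply]
  linear_combination (bil x b * a l - bil x a * b l) * h'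

lemma bil_root_four {i : Fin 5} (hi : i ≠ 4) : bil (root i) (root 4) = -2 := by
  fin_cases i <;> first | exact absurd rfl hi | (simp [bil, root]; norm_num)

/-- the nilpotent matrices attached to the pairs of roots `i, 4` -/
def NN (i : Fin 5) : Matrix (Fin 5) (Fin 5) ℝ := wedge (root 4) (root i)

lemma NN_cube {i : Fin 5} (hi : i ≠ 4) : NN i * NN i * NN i = 0 := by
  apply wedge_nilp
  rw [bil_root_self, bil_root_self, bil_symm, bil_root_four hi]
  norm_num

lemma E_NN {i : Fin 5} (hi : i ≠ 4) : E (NN i) 1 = refl i * refl 4 := by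
  apply Matrix.ext_of_mulVec_single
  intro k
  set x : Fin 5 → ℝ := Pi.single k 1
  rw [E, ← mulVec_mulVec, refl_mulVec, refl_mulVec, add_mulVec, add_mulVec, one_mulVec,
    smul_mulVec, smul_mulVec, ← mulVec_mulVec, NN, wedge_mulVec _ _ (wedge _ _ *ᵥ x), bil_wedge,
    bil_wedge, wedge_mulVec, bil_sub_left, bil_smul_left, bil_root_self, bil_root_self,
    bil_symm (root 4) (root i), bil_root_four hi]
  ext l
  simp only [Pi.sub_apply, Pi.smul_apply, smul_eq_mul, Pi.add_apply]
  ring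

lemma refl_isom (i : Fin 5) : (refl i)ᵀ * S * refl i = S := by
  have h : (refl i)ᵀ * S = S * refl i := by
    simp only [refl, transpose_sub, transpose_one, transpose_vecMulVec, Matrix.sub_mul,
      Matrix.mul_sub, Matrix.one_mul, Matrix.mul_one, Matrix.vecMulVec_mul, Matrix.mul_vecMulVec]
    rw [← mulVec_transpose, S_transpose]
  rw [h, Matrix.mul_assoc, refl_sq, Matrix.mul_one]

lemma wd_append (L M : List (Fin 5)) : wd (L ++ M) = wd L * wd M := by
  simp [wd]

lemma wd_reverse_mul (L : List (Fin 5)) : wd L.reverse * wd L = 1 := by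
  induction L with
  | nil => simp
  | cons j L ih =>
    rw [List.reverse_cons, wd_append, wd_cons, wd_cons, wd_nil, Matrix.mul_one,
      Matrix.mul_assoc, ← Matrix.mul_assoc (refl j), refl_sq, Matrix.one_mul, ih]

/-- `Γ`: the matrices that are products of an even number of the five reflections -/
def Gam : Subgroup (GL (Fin 5) ℝ) where
  carrier := {g | ∃ L : List (Fin 5), Even L.length ∧ (g : Matrix (Fin 5) (Fin 5) ℝ) = wd L}
  one_mem' := ⟨[], by simp, by simp⟩
  mul_mem' := by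
    rintro a b ⟨L, hL, ha⟩ ⟨M, hM, hb⟩
    refine ⟨L ++ M, ?_, ?_⟩
    · rw [List.length_append]; exact hL.add hM
    · rw [GeneralLinearGroup.coe_mul, ha, hb, wd_append]
  inv_mem' := by
    rintro a ⟨L, hL, ha⟩
    refine ⟨L.reverse, by simpa using hL, ?_⟩
    have h1 : (a : Matrix (Fin 5) (Fin 5) ℝ) * ((a⁻¹ : GL (Fin 5) ℝ) : Matrix (Fin 5) (Fin 5) ℝ)
        = 1 := by simp
    calc ((a⁻¹ : GL (Fin 5) ℝ) : Matrix (Fin 5) (Fin 5) ℝ)
        = (wd L.reverse * wd L) * ((a⁻¹ : GL (Fin 5) ℝ) : Matrix (Fin 5) (Fin 5) ℝ) := by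
          rw [wd_reverse_mul, Matrix.one_mul]
      _ = wd L.reverse := by rw [Matrix.mul_assoc, ← ha, h1, Matrix.mul_one]

lemma mem_Gam {g : GL (Fin 5) ℝ} : g ∈ Gam ↔
    ∃ L : List (Fin 5), Even L.length ∧ (g : Matrix (Fin 5) (Fin 5) ℝ) = wd L := Iff.rfl

/-- an element of `Γ` that maps a point of the chamber into the chamber is trivial -/
lemma Gam_eq_one {g : GL (Fin 5) ℝ} (hg : g ∈ Gam) {x : Fin 5 → ℝ} (hx : x ∈ chamber)
    (h : (g : Matrix (Fin 5) (Fin 5) ℝ) *ᵥ x ∈ chamber) : g = 1 := by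
  obtain ⟨L, -, hL⟩ := hg
  rw [hL] at h
  apply Units.ext
  rw [hL, wd_eq_one hx L h]
  rfl

/-- the reflections as elements of `GL₅` -/
def rG (i : Fin 5) : GL (Fin 5) ℝ := mkG (refl i) (refl_isom i)

lemma rG_sq (i : Fin 5) : rG i * rG i = 1 := by
  apply Units.ext
  exact refl_sq i

lemma rr4_mem (i : Fin 5) : rG i * rG 4 ∈ SO32 := by
  by_cases hi : i = 4
  · rw [hi, rG_sq]
    exact SO32.one_mem
  · have h := mem_SO32_of_path (E (NN i)) (E_cont _) (E_zero _)
      (E_isom (NN_cube hi) (wedge_skew _ _)) 1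
    convert h using 1
    apply Units.ext
    exact (E_NN hi).symm

lemma rr_mem (i j : Fin 5) : rG i * rG j ∈ SO32 := by
  have h : rG i * rG j = (rG i * rG 4) * (rG j * rG 4)⁻¹ := by
    rw [_root_.mul_inv_rev]
    have h4 : (rG 4)⁻¹ = rG 4 := inv_eq_of_mul_eq_one_left (rG_sq 4)
    have hj : (rG j)⁻¹ = rG j := inv_eq_of_mul_eq_one_left (rG_sq j)
    rw [h4, hj, mul_assoc, ← mul_assoc (rG 4), rG_sq, one_mul]
  rw [h]
  exact SO32.mul_mem (rr4_mem i) (SO32.inv_mem (rr4_mem j))

lemma wd_even_mem : ∀ (n : ℕ) (L : List (Fin 5)), L.length = 2 * n → ∀ g : GL (Fin 5) ℝ,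
    (g : Matrix (Fin 5) (Fin 5) ℝ) = wd L → g ∈ SO32
  | 0, L, hL, g, hg => by
    have : L = [] := List.length_eq_zero_iff.mp (by simpa using hL)
    subst this
    have : g = 1 := Units.ext (by simpa using hg)
    rw [this]; exact SO32.one_mem
  | n + 1, L, hL, g, hg => by
    match L, hL, hg with
    | i :: j :: M, hL, hg =>
      have hM : M.length = 2 * n := by simp at hL; omega
      have h1 := wd_even_mem n M hM ((rG i * rG j)⁻¹ * g) (by
        have : (g : Matrix (Fin 5) (Fin 5) ℝ) =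
            ((rG i * rG j : GL (Fin 5) ℝ) : Matrix (Fin 5) (Fin 5) ℝ) * wd M := by
          rw [hg, wd_cons, wd_cons, ← Matrix.mul_assoc]; rfl
        rw [GeneralLinearGroup.coe_mul, this, ← Matrix.mul_assoc, ← GeneralLinearGroup.coe_mul]
        simp)
      have : g = (rG i * rG j) * ((rG i * rG j)⁻¹ * g) := by group
      rw [this]
      exact SO32.mul_mem (rr_mem i j) h1

lemma Gam_le : Gam ≤ SO32 := by
  rintro g ⟨L, ⟨n, hn⟩, hg⟩
  exact wd_even_mem n L (by omega) g hg

/-- a point of the chamber -/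
def pt : Fin 5 → ℝ := ![3/2, -1, 3/2, -1, 0]

lemma pt_mem : pt ∈ chamber := by
  intro i
  fin_cases i <;> simp [bil, root, pt] <;> norm_num

lemma isOpen_chamber : IsOpen chamber := by
  have : chamber = ⋂ i, {x | 0 < bil x (root i)} := by
    ext x; simp [chamber]
  rw [this]
  apply isOpen_iInter_of_finite
  intro i
  apply isOpen_lt continuous_const
  simp only [bil]
  fun_prop

/-- `Γ` is discrete -/
lemma Gam_discrete : DiscreteTopology Gam := by
  rw [discreteTopology_iff_isOpen_singleton_one]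
  have hc : Continuous fun g : Gam => ((g : GL (Fin 5) ℝ) : Matrix (Fin 5) (Fin 5) ℝ) *ᵥ pt := by
    have h1 : Continuous fun g : GL (Fin 5) ℝ => (g : Matrix (Fin 5) (Fin 5) ℝ) :=
      Units.continuous_val
    have h2 : Continuous fun g : Gam => ((g : GL (Fin 5) ℝ) : Matrix (Fin 5) (Fin 5) ℝ) :=
      h1.comp continuous_subtype_val
    exact Continuous.matrix_mulVec h2 continuous_const
  have h2 := isOpen_chamber.preimage hc
  convert h2 using 1
  ext g
  simp only [Set.mem_singleton_iff, Set.mem_preimage]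
  constructor
  · rintro rfl
    simpa using pt_mem
  · intro h
    exact Subtype.ext (Gam_eq_one g.2 pt_mem h)

end Pool.Agent.H56R2.CL
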