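import Mathlib
import Pool.Agent.H56R2.CL.Gam

/-!
`Γ` has infinite covolume.
-/

set_option autoImplicit false

noncomputable section

open Matrix MeasureTheory
open scoped Pointwise ENNReal

namespace Pool.Agent.H56R2.CL

/-- isometry matrices -/
def isoM : Set (Matrix (Fin 5) (Fin 5) ℝ) := {M | Mᵀ * S * M = S}

lemma isoM_closed : IsClosed isoM := by
  apply isClosed_eq _ continuous_const
  fun_prop

/-- `O(q)` is homeomorphic to a closed set of matrices -/
def homeoO : Oq ≃ₜ isoM where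
  toFun g := ⟨((g : GL (Fin 5) ℝ) : Matrix (Fin 5) (Fin 5) ℝ), g.2⟩
  invFun M := ⟨mkG M.1 M.2, mkG_mem _ _⟩
  left_inv g := by
    apply Subtype.ext
    apply Units.ext
    rfl
  right_inv M := rfl
  continuous_toFun := by
    apply Continuous.subtype_mk
    exact Units.continuous_val.comp continuous_subtype_val
  continuous_invFun := by
    apply Continuous.subtype_mk
    rw [Units.continuous_iff]
    refine ⟨continuous_subtype_val, ?_⟩
    change Continuous fun M : isoM => Si * (M.1)ᵀ * S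
    have := continuous_subtype_val (p := fun M => M ∈ isoM)
    fun_prop

lemma emb : Topology.IsClosedEmbedding
    (fun g : SO32 => ((g : GL (Fin 5) ℝ) : Matrix (Fin 5) (Fin 5) ℝ)) := by
  have h1 : Topology.IsClosedEmbedding (fun g : SO32 => (⟨g.1, SO32_le_Oq g.2⟩ : Oq)) := by
    have h : Topology.IsClosedEmbedding (Subtype.val : SO32 → GL (Fin 5) ℝ) :=
      SO32_closed.isClosedEmbedding_subtypeVal
    have h2 : Topology.IsClosedEmbedding (Subtype.val : Oq → GL (Fin 5) ℝ) :=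
      Oq_closed.isClosedEmbedding_subtypeVal
    exact (Topology.IsClosedEmbedding.of_comp_iff h2).mp h
  have h3 : Topology.IsClosedEmbedding (Subtype.val : isoM → Matrix (Fin 5) (Fin 5) ℝ) :=
    isoM_closed.isClosedEmbedding_subtypeVal
  exact h3.comp (homeoO.isClosedEmbedding.comp h1)

instance : LocallyCompactSpace (Matrix (Fin 5) (Fin 5) ℝ) :=
  inferInstanceAs (LocallyCompactSpace (Fin 5 → Fin 5 → ℝ))

instance : SecondCountableTopology (Matrix (Fin 5) (Fin 5) ℝ) :=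
  inferInstanceAs (SecondCountableTopology (Fin 5 → Fin 5 → ℝ))

instance : LocallyCompactSpace SO32 := emb.locallyCompactSpace

instance : SecondCountableTopology SO32 := emb.isEmbedding.secondCountableTopology

/-- isotropic vector orthogonal to `pt` -/
def nn : Fin 5 → ℝ := ![3, 0, 0, 2, 0]
/-- last basis vector -/
def e4 : Fin 5 → ℝ := ![0, 0, 0, 0, 1]

lemma nn_nilp : wedge e4 nn * wedge e4 nn * wedge e4 nn = 0 := by
  apply wedge_nilp
  simp [bil, e4, nn]

lemma wedge_pt : wedge e4 nn *ᵥ pt = 0 := by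
  rw [wedge_mulVec]
  have h1 : bil pt nn = 0 := by
    simp [bil, pt, nn]
    try norm_num
  have h2 : bil pt e4 = 0 := by simp [bil, pt, e4]
  rw [h1, h2]; simp

/-- one-parameter group fixing `pt` -/
def hh (t : ℝ) : SO32 :=
  ⟨mkG (E (wedge e4 nn) t) (E_isom nn_nilp (wedge_skew _ _) t),
    mem_SO32_of_path _ (E_cont _) (E_zero _) (E_isom nn_nilp (wedge_skew _ _)) t⟩

lemma coe_hh (t : ℝ) :
    (((hh t : SO32) : GL (Fin 5) ℝ) : Matrix (Fin 5) (Fin 5) ℝ) = E (wedge e4 nn) t := rfl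

lemma hh_add (s t : ℝ) : hh (s + t) = hh s * hh t := by
  apply Subtype.ext
  apply Units.ext
  exact (E_add nn_nilp s t).symm

lemma hh_zero : hh 0 = 1 := by
  apply Subtype.ext
  apply Units.ext
  exact E_zero _

lemma hh_neg (t : ℝ) : hh (-t) = (hh t)⁻¹ := by
  rw [eq_inv_iff_mul_eq_one, ← hh_add]
  simp [hh_zero]

lemma hh_pt (t : ℝ) :
    (((hh t : SO32) : GL (Fin 5) ℝ) : Matrix (Fin 5) (Fin 5) ℝ) *ᵥ pt = pt := by
  rw [coe_hh, E, add_mulVec, add_mulVec, smul_mulVec, smul_mulVec, ← mulVec_mulVec, wedge_pt]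
  simp

lemma hh_entry (t : ℝ) :
    (((hh t : SO32) : GL (Fin 5) ℝ) : Matrix (Fin 5) (Fin 5) ℝ) 0 4 = -6 * t := by
  rw [coe_hh, E]
  have h1 : wedge e4 nn 0 4 = -6 := by
    simp [wedge, vecMulVec, e4, nn, S, mulVec, dotProduct, Fin.sum_univ_five]
    try norm_num
  have h2 : (wedge e4 nn * wedge e4 nn) 0 4 = 0 := by
    simp [wedge, vecMulVec, e4, nn, S, mulVec, dotProduct, Fin.sum_univ_five, Matrix.mul_apply]
  simp [h1, h2]
  ring

lemma exists_nbhd : ∃ U : Set SO32, IsOpen U ∧ 1 ∈ U ∧ IsCompact (closure U) ∧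
    (∀ e ∈ U, ((e : GL (Fin 5) ℝ) : Matrix (Fin 5) (Fin 5) ℝ) *ᵥ pt ∈ chamber) ∧
    ∀ e ∈ U, ∀ e' ∈ U,
      |(((e'⁻¹ * e : SO32) : GL (Fin 5) ℝ) : Matrix (Fin 5) (Fin 5) ℝ) 0 4| < 6 := by
  have hval : Continuous (fun g : SO32 => ((g : GL (Fin 5) ℝ) : Matrix (Fin 5) (Fin 5) ℝ)) :=
    emb.continuous
  have hf : Continuous (fun p : SO32 × SO32 =>
      |(((p.2⁻¹ * p.1 : SO32) : GL (Fin 5) ℝ) : Matrix (Fin 5) (Fin 5) ℝ) 0 4|) := by
    have h1 : Continuous (fun p : SO32 × SO32 => p.2⁻¹ * p.1) := by fun_prop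
    exact ((hval.comp h1).matrix_elem 0 4).abs
  have hopen : {p : SO32 × SO32 |
      |(((p.2⁻¹ * p.1 : SO32) : GL (Fin 5) ℝ) : Matrix (Fin 5) (Fin 5) ℝ) 0 4| < 6} ∈
      nhds ((1, 1) : SO32 × SO32) := by
    apply (isOpen_lt hf continuous_const).mem_nhds
    simp
  rw [nhds_prod_eq, Filter.mem_prod_iff] at hopen
  obtain ⟨U₁, hU₁, U₂, hU₂, h12⟩ := hopen
  have hch : {e : SO32 | ((e : GL (Fin 5) ℝ) : Matrix (Fin 5) (Fin 5) ℝ) *ᵥ pt ∈ chamber} ∈
      nhds (1 : SO32) := by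
    apply (isOpen_chamber.preimage (Continuous.matrix_mulVec hval continuous_const)).mem_nhds
    simpa using pt_mem
  obtain ⟨K, hK, hK1⟩ := exists_compact_mem_nhds (1 : SO32)
  obtain ⟨U, hUsub, hUo, hU1⟩ := mem_nhds_iff.mp
    (Filter.inter_mem (Filter.inter_mem hU₁ hU₂) (Filter.inter_mem hch hK1))
  refine ⟨U, hUo, hU1, ?_, ?_, ?_⟩
  · exact hK.closure_of_subset (fun x hx => (hUsub hx).2.2)
  · intro e he
    exact (hUsub he).2.1
  · intro e he e' he'
    exact h12 (Set.mk_mem_prod (hUsub he).1.1 (hUsub he').1.2)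

/-- the basic separation statement -/
lemma sep {U : Set SO32}
    (h1 : ∀ e ∈ U, ((e : GL (Fin 5) ℝ) : Matrix (Fin 5) (Fin 5) ℝ) *ᵥ pt ∈ chamber)
    (h2 : ∀ e ∈ U, ∀ e' ∈ U,
      |(((e'⁻¹ * e : SO32) : GL (Fin 5) ℝ) : Matrix (Fin 5) (Fin 5) ℝ) 0 4| < 6)
    {γ e e' : SO32} (hγ : (γ : GL (Fin 5) ℝ) ∈ Gam) (he : e ∈ U) (he' : e' ∈ U) (k : ℤ)
    (h : γ * e' = e * hh k) : γ = 1 ∧ k = 0 := by
  have h3 : ((γ : GL (Fin 5) ℝ) : Matrix (Fin 5) (Fin 5) ℝ) *ᵥ
      (((e' : GL (Fin 5) ℝ) : Matrix (Fin 5) (Fin 5) ℝ) *ᵥ pt) =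
      ((e : GL (Fin 5) ℝ) : Matrix (Fin 5) (Fin 5) ℝ) *ᵥ pt := by
    have h4 : ((γ : GL (Fin 5) ℝ) : Matrix (Fin 5) (Fin 5) ℝ) *
        ((e' : GL (Fin 5) ℝ) : Matrix (Fin 5) (Fin 5) ℝ) =
        ((e : GL (Fin 5) ℝ) : Matrix (Fin 5) (Fin 5) ℝ) *
        ((hh k : GL (Fin 5) ℝ) : Matrix (Fin 5) (Fin 5) ℝ) := by
      have := congrArg (fun g : SO32 => ((g : GL (Fin 5) ℝ) : Matrix (Fin 5) (Fin 5) ℝ)) h
      simpa using this
    rw [mulVec_mulVec, h4, ← mulVec_mulVec, hh_pt]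
  have h5 : (γ : GL (Fin 5) ℝ) = 1 := by
    apply Gam_eq_one hγ (h1 e' he')
    rw [h3]
    exact h1 e he
  have h6 : γ = 1 := Subtype.ext h5
  refine ⟨h6, ?_⟩
  rw [h6, one_mul] at h
  have h7 := h2 e' he' e he
  rw [h, inv_mul_cancel_left, hh_entry] at h7
  have h8 : |(k : ℝ)| < 1 := by
    rw [abs_mul] at h7
    norm_num at h7
    linarith
  have h9 : |k| < 1 := by exact_mod_cast h8
  exact Int.abs_lt_one_iff.mp h9

/-- `G/Γ` carries no finite nonzero invariant measure -/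
theorem no_finite_measure : ¬ HasFiniteInvariantMeasure SO32 Gam := by
  rintro ⟨μ, hμ0, hμfin, hinv⟩
  let _ : MeasurableSpace (SO32 ⧸ Gam.subgroupOf SO32) := borel _
  have _ : BorelSpace (SO32 ⧸ Gam.subgroupOf SO32) := ⟨rfl⟩
  obtain ⟨U, hUo, hU1, -, hch, hsmall⟩ := exists_nbhd
  let D : Set (SO32 ⧸ Gam.subgroupOf SO32) := QuotientGroup.mk '' U⁻¹
  have hDo : IsOpen D := QuotientGroup.isOpenMap_coe _ hUo.inv
  have hgD : ∀ g : SO32, IsOpen (g • D) := fun g => hDo.smul g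
  have hdisj : Pairwise (Function.onFun Disjoint (fun k : ℤ => hh k • D)) := by
    intro k m hkm
    change Disjoint _ _
    rw [Set.disjoint_left]
    rintro x hx1 hx2
    obtain ⟨_, ⟨e, he, rfl⟩, rfl⟩ := hx1
    obtain ⟨_, ⟨e', he', rfl⟩, hx⟩ := hx2
    change QuotientGroup.mk (hh m * e') = QuotientGroup.mk (hh k * e) at hx
    rw [QuotientGroup.eq] at hx
    have hγ : (((hh m * e')⁻¹ * (hh k * e) : SO32) : GL (Fin 5) ℝ) ∈ Gam :=
      Subgroup.mem_subgroupOf.mp hx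
    have key : ((hh m * e')⁻¹ * (hh k * e)) * e⁻¹ = e'⁻¹ * hh ((k - m : ℤ) : ℝ) := by
      have : hh ((k - m : ℤ) : ℝ) = (hh m)⁻¹ * hh k := by
        rw [← hh_neg, ← hh_add]
        congr 1
        push_cast
        ring
      rw [this]
      group
    have := (sep hch hsmall hγ (by simpa using he') (by simpa using he) (k - m) key).2
    omega
  have hD0 : μ D = 0 := by
    by_contra hne
    have h1 : ∑' k : ℤ, μ (hh k • D) = ∞ := by
      have : ∀ k : ℤ, μ (hh k • D) = μ D := fun k => hinv (hh k) D hDo.measurableSet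
      simp only [this]
      exact ENNReal.tsum_const_eq_top_of_ne_zero hne
    rw [← measure_iUnion hdisj (fun k => (hgD _).measurableSet)] at h1
    have h2 : μ (⋃ k : ℤ, hh k • D) ≤ μ Set.univ := measure_mono (Set.subset_univ _)
    rw [h1] at h2
    exact absurd hμfin (not_lt.mpr h2)
  obtain ⟨s, hs, hcov⟩ := countable_cover_nhds (X := SO32) (U := fun g => g • U⁻¹)
    (fun g => (hUo.inv.smul g).mem_nhds ⟨1, by simpa using hU1, by simp⟩)
  apply hμ0
  rw [← Measure.measure_univ_eq_zero]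
  have huniv : (Set.univ : Set (SO32 ⧸ Gam.subgroupOf SO32)) ⊆ ⋃ g ∈ s, g • D := by
    intro x _
    obtain ⟨y, rfl⟩ := QuotientGroup.mk_surjective x
    have hy : y ∈ ⋃ g ∈ s, g • U⁻¹ := by rw [hcov]; trivial
    simp only [Set.mem_iUnion] at hy ⊢
    obtain ⟨g, hg, u, hu, rfl⟩ := hy
    exact ⟨g, hg, QuotientGroup.mk u, ⟨u, hu, rfl⟩, rfl⟩
  apply measure_mono_null huniv
  rw [measure_biUnion_null_iff hs]
  intro g _
  rw [hinv g D hDo.measurableSet, hD0]

lemma Gam_countable : Countable Gam := by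
  have : Set.Countable (Set.range wd) := Set.countable_range wd
  have h2 : Function.Injective (fun g : Gam =>
      (⟨((g : GL (Fin 5) ℝ) : Matrix (Fin 5) (Fin 5) ℝ), by
        obtain ⟨L, -, hL⟩ := g.2
        exact ⟨L, hL.symm⟩⟩ : Set.range wd)) := by
    intro a b hab
    apply Subtype.ext
    apply Units.ext
    exact congrArg Subtype.val hab
  have := this.to_subtype
  exact h2.countable

/-- every Borel set that meets all the orbits of `Γ` on `G` has infinite Haar measure -/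
theorem no_finite_covolume : ¬ HasFiniteCovolume SO32 Gam := by
  rintro ⟨μ, hμ, F, hF, hFfin, hcov⟩
  let _ : MeasurableSpace SO32 := borel _
  have _ : BorelSpace SO32 := ⟨rfl⟩
  have _ : μ.IsHaarMeasure := hμ
  obtain ⟨U, hUo, hU1, hUc, hch, hsmall⟩ := exists_nbhd
  let Γ' : Subgroup SO32 := Gam.subgroupOf SO32
  have hcΓ : Countable Γ' := by
    have h := Gam_countable
    have h2 : Function.Injective (fun g : Γ' => (⟨((g : SO32) : GL (Fin 5) ℝ), g.2⟩ : Gam)) := by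
      intro a b hab
      apply Subtype.ext
      apply Subtype.ext
      exact congrArg (fun g : Gam => (g : GL (Fin 5) ℝ)) hab
    exact h2.countable
  -- the right translates of `U`
  let R : ℤ → Set SO32 := fun k => (fun x => x * (hh k)⁻¹) ⁻¹' U
  have hRo : ∀ k, IsOpen (R k) := fun k => hUo.preimage (continuous_mul_const _)
  let T : ℤ → Set SO32 := fun k => ⋃ γ : Γ', γ • R k
  have hTo : ∀ k, IsOpen (T k) := fun k => isOpen_iUnion fun γ => (hRo k).smul (γ : SO32)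
  have hsep : ∀ (k m : ℤ) (γ : SO32), γ ∈ Γ' → ∀ x y : SO32, x ∈ R k → y ∈ R m → γ * y = x →
      γ = 1 ∧ k = m := by
    intro k m γ hγ x y hx hy hxy
    have hx' : x * (hh k)⁻¹ ∈ U := hx
    have hy' : y * (hh m)⁻¹ ∈ U := hy
    have h1 : γ * (y * (hh m)⁻¹) = (x * (hh k)⁻¹) * hh ((k - m : ℤ) : ℝ) := by
      have : hh ((k - m : ℤ) : ℝ) = hh k * (hh m)⁻¹ := by
        rw [← hh_neg, ← hh_add]
        congr 1
        push_cast
        ring
      rw [this, ← hxy]
      group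
    have := sep hch hsmall (Subgroup.mem_subgroupOf.mp hγ) hx' hy' (k - m) h1
    exact ⟨this.1, by omega⟩
  have hTdisj : Pairwise (Function.onFun Disjoint (fun k : ℤ => T k ∩ F)) := by
    intro k m hkm
    change Disjoint _ _
    rw [Set.disjoint_left]
    rintro z ⟨hz1, -⟩ ⟨hz2, -⟩
    simp only [T, Set.mem_iUnion] at hz1 hz2
    obtain ⟨γ, x, hx, rfl⟩ := hz1
    obtain ⟨γ', y, hy, hxy⟩ := hz2
    apply hkm
    refine (hsep k m ((γ : SO32)⁻¹ * γ') (Γ'.mul_mem (Γ'.inv_mem γ.2) γ'.2) x y hx hy ?_).2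
    have h2 : (γ' : SO32) * y = (γ : SO32) * x := hxy
    rw [mul_assoc, h2, inv_mul_cancel_left]
  have hle : ∀ k, μ (R k) ≤ μ (T k ∩ F) := by
    intro k
    have hsub : R k ⊆ ⋃ γ : Γ', (R k ∩ (fun x => (γ : SO32) * x) ⁻¹' F) := by
      intro x hx
      obtain ⟨γ, hγ, hγx⟩ := hcov x
      exact Set.mem_iUnion.mpr ⟨⟨γ, Subgroup.mem_subgroupOf.mpr hγ⟩, hx, hγx⟩
    have hmeas : ∀ γ : Γ', MeasurableSet ((fun x => (γ : SO32)⁻¹ * x) ⁻¹' (R k) ∩ F) := by
      intro γ
      exact ((hRo k).preimage (continuous_const_mul _)).measurableSet.inter hF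
    calc μ (R k) ≤ μ (⋃ γ : Γ', (R k ∩ (fun x => (γ : SO32) * x) ⁻¹' F)) := measure_mono hsub
      _ ≤ ∑' γ : Γ', μ (R k ∩ (fun x => (γ : SO32) * x) ⁻¹' F) := measure_iUnion_le _
      _ = ∑' γ : Γ', μ ((fun x => (γ : SO32)⁻¹ * x) ⁻¹' (R k) ∩ F) := by
          congr 1
          ext γ
          rw [← measure_preimage_mul μ (γ : SO32) ((fun x => (γ : SO32)⁻¹ * x) ⁻¹' (R k) ∩ F)]
          congr 1
          ext x
          simp
      _ = μ (⋃ γ : Γ', ((fun x => (γ : SO32)⁻¹ * x) ⁻¹' (R k) ∩ F)) := by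
          rw [measure_iUnion _ hmeas]
          intro γ γ' hne
          change Disjoint _ _
          rw [Set.disjoint_left]
          rintro z ⟨hz1, -⟩ ⟨hz2, -⟩
          apply hne
          have := (hsep k k ((γ : SO32)⁻¹ * γ') (Γ'.mul_mem (Γ'.inv_mem γ.2) γ'.2) _ _ hz1 hz2
            (by group)).1
          apply Subtype.ext
          rw [inv_mul_eq_one] at this
          exact this
      _ ≤ μ (T k ∩ F) := by
          apply measure_mono
          intro z hz
          obtain ⟨γ, hz1, hz2⟩ := Set.mem_iUnion.mp hz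
          refine ⟨Set.mem_iUnion.mpr ⟨γ, ?_⟩, hz2⟩
          exact ⟨(γ : SO32)⁻¹ * z, hz1, by
            change (γ : SO32) * ((γ : SO32)⁻¹ * z) = z
            group⟩
  have hsum : ∑' k : ℤ, μ (R k) ≤ μ F := by
    calc ∑' k : ℤ, μ (R k) ≤ ∑' k : ℤ, μ (T k ∩ F) := ENNReal.tsum_le_tsum hle
      _ = μ (⋃ k, T k ∩ F) := by
        rw [measure_iUnion hTdisj (fun k => (hTo k).measurableSet.inter hF)]
      _ ≤ μ F := measure_mono (Set.iUnion_subset fun k => Set.inter_subset_right)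
  -- the modular function
  let Δ : SO32 →* NNReal := Measure.modularCharacter
  have hΔ : ∀ k : ℤ, μ (R k) = (Δ ((hh k)⁻¹) : ℝ≥0∞) * μ U := by
    intro k
    have h1 : μ (R k) = Measure.map (· * (hh k)⁻¹) μ U := by
      rw [Measure.map_apply (measurable_mul_const _) hUo.measurableSet]
    rw [h1, Measure.measure_isMulInvariant_eq_smul_of_isCompact_closure _ μ hUc]
    change _ = ((Measure.modularCharacterFun (hh k)⁻¹ : NNReal) : ℝ≥0∞) * μ U
    rw [Measure.modularCharacterFun_eq_haarScalarFactor μ]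
    rfl
  have hUpos : μ U ≠ 0 := (hUo.measure_pos μ ⟨1, hU1⟩).ne'
  have hpos : ∀ g : SO32, Δ g ≠ 0 := fun g => (Measure.modularCharacterFun_pos g).ne'
  have hzpow : ∀ n : ℕ, Δ (hh ((n : ℤ) : ℝ)) = Δ (hh 1) ^ n := by
    intro n
    induction n with
    | zero => simp [hh_zero]
    | succ n ih =>
      have : hh (((n + 1 : ℕ) : ℤ) : ℝ) = hh ((n : ℤ) : ℝ) * hh 1 := by
        rw [← hh_add]; congr 1; push_cast; ring
      rw [this, map_mul, ih, pow_succ]
  have htop : ∑' k : ℤ, μ (R k) = ∞ := by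
    rw [← top_le_iff]
    by_cases hcase : 1 ≤ Δ (hh 1)
    · -- use negative `k`
      have hinj : Function.Injective (fun n : ℕ => -(n : ℤ)) := by
        intro a b hab
        simpa using hab
      calc ∞ = ∑' n : ℕ, μ U := (ENNReal.tsum_const_eq_top_of_ne_zero hUpos).symm
        _ ≤ ∑' n : ℕ, μ (R (-(n : ℤ))) := by
          apply ENNReal.tsum_le_tsum
          intro n
          rw [hΔ]
          have h1 : (hh ((-(n : ℤ) : ℤ) : ℝ))⁻¹ = hh ((n : ℤ) : ℝ) := by
            rw [← hh_neg]; congr 1; push_cast; ring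
          rw [h1, hzpow]
          calc μ U = 1 * μ U := (one_mul _).symm
            _ ≤ _ := by
              apply mul_le_mul_left
              exact_mod_cast one_le_pow₀ hcase
        _ ≤ ∑' k : ℤ, μ (R k) := ENNReal.tsum_comp_le_tsum_of_injective hinj _
    · have hcase' : Δ (hh 1) ≤ 1 := (not_le.mp hcase).le
      have hinj : Function.Injective (fun n : ℕ => (n : ℤ)) := Nat.cast_injective
      calc ∞ = ∑' n : ℕ, μ U := (ENNReal.tsum_const_eq_top_of_ne_zero hUpos).symm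
        _ ≤ ∑' n : ℕ, μ (R (n : ℤ)) := by
          apply ENNReal.tsum_le_tsum
          intro n
          rw [hΔ]
          have h2 : Δ ((hh ((n : ℤ) : ℝ))⁻¹) * Δ (hh ((n : ℤ) : ℝ)) = 1 := by
            rw [← map_mul, inv_mul_cancel, map_one]
          have h3 : Δ (hh ((n : ℤ) : ℝ)) ≤ 1 := by
            rw [hzpow]
            exact pow_le_one₀ zero_le hcase'
          have h4 : 1 ≤ Δ ((hh ((n : ℤ) : ℝ))⁻¹) := by
            calc (1 : NNReal) = Δ ((hh ((n : ℤ) : ℝ))⁻¹) * Δ (hh ((n : ℤ) : ℝ)) := h2.symm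
              _ ≤ Δ ((hh ((n : ℤ) : ℝ))⁻¹) * 1 := by gcongr
              _ = _ := mul_one _
          calc μ U = 1 * μ U := (one_mul _).symm
            _ ≤ _ := by
              apply mul_le_mul_left
              exact_mod_cast h4
        _ ≤ ∑' k : ℤ, μ (R k) := ENNReal.tsum_comp_le_tsum_of_injective hinj _
  rw [htop] at hsum
  exact absurd hFfin (not_lt.mpr hsum)

end Pool.Agent.H56R2.CL
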