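import Mathlib
import Pool.Agent.H56R2.CL.Cov

/-!
Zariski closure of `Γ`.
-/

set_option autoImplicit false

noncomputable section

open Matrix Polynomial

namespace Pool.Agent.H56R2.CL

abbrev M5 : Type := Matrix (Fin 5) (Fin 5) ℝ

/-- polynomial functions of the matrix entries -/
def PF : Subalgebra ℝ (M5 → ℝ) :=
  Algebra.adjoin ℝ (Set.range fun p : Fin 5 × Fin 5 => fun M : M5 => M p.1 p.2)

lemma entry_mem (i j : Fin 5) : (fun M : M5 => M i j) ∈ PF :=
  Algebra.subset_adjoin ⟨(i, j), rfl⟩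

lemma const_mem (c : ℝ) : (fun _ : M5 => c) ∈ PF := PF.algebraMap_mem c

lemma sum_mem' {ι : Type} (s : Finset ι) (f : ι → M5 → ℝ) (h : ∀ i ∈ s, f i ∈ PF) :
    (fun M => ∑ i ∈ s, f i M) ∈ PF := by
  have := PF.sum_mem h
  convert this using 1
  ext M
  simp

lemma comp_mem {φ : M5 → M5} (hφ : ∀ i j, (fun M => φ M i j) ∈ PF) {f : M5 → ℝ} (hf : f ∈ PF) :
    (fun M => f (φ M)) ∈ PF := by
  induction hf using Algebra.adjoin_induction with
  | mem x hx => obtain ⟨p, rfl⟩ := hx; exact hφ p.1 p.2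
  | algebraMap r => exact PF.algebraMap_mem r
  | add x y _ _ hx hy => exact PF.add_mem hx hy
  | mul x y _ _ hx hy => exact PF.mul_mem hx hy

lemma mul_left_mem (a : M5) {f : M5 → ℝ} (hf : f ∈ PF) : (fun M => f (a * M)) ∈ PF := by
  apply comp_mem (φ := fun M => a * M) _ hf
  intro i j
  simp only [Matrix.mul_apply]
  exact sum_mem' _ _ fun k _ => PF.mul_mem (const_mem _) (entry_mem k j)

lemma mul_right_mem (a : M5) {f : M5 → ℝ} (hf : f ∈ PF) : (fun M => f (M * a)) ∈ PF := by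
  apply comp_mem (φ := fun M => M * a) _ hf
  intro i j
  simp only [Matrix.mul_apply]
  exact sum_mem' _ _ fun k _ => PF.mul_mem (entry_mem i k) (const_mem _)

lemma adj_mem {f : M5 → ℝ} (hf : f ∈ PF) : (fun M : M5 => f (Si * Mᵀ * S)) ∈ PF := by
  apply comp_mem (φ := fun M => Si * Mᵀ * S) _ hf
  intro i j
  simp only [Matrix.mul_apply, Finset.sum_mul]
  exact sum_mem' _ _ fun k _ => sum_mem' _ _ fun l _ =>
    PF.mul_mem (PF.mul_mem (const_mem _) (entry_mem k l)) (const_mem _)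

lemma cont_of_mem {f : M5 → ℝ} (hf : f ∈ PF) : Continuous f := by
  induction hf using Algebra.adjoin_induction with
  | mem x hx => obtain ⟨p, rfl⟩ := hx; exact continuous_apply_apply p.1 p.2
  | algebraMap r => exact continuous_const
  | add x y _ _ hx hy => exact hx.add hy
  | mul x y _ _ hx hy => exact hx.mul hy

/-- the Zariski closure of `Γ` in the space of matrices -/
def Z : Set M5 := {M | ∀ f ∈ PF, (∀ γ : GL (Fin 5) ℝ, γ ∈ Gam → f γ = 0) → f M = 0}

lemma Z_of_Gam {γ : GL (Fin 5) ℝ} (h : γ ∈ Gam) : (γ : M5) ∈ Z := fun _ _ h2 => h2 γ h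

lemma Z_of_even {L : List (Fin 5)} (h : Even L.length) : wd L ∈ Z := by
  have h1 : (wd L)ᵀ * S * wd L = S := by
    clear h
    induction L with
    | nil => simp
    | cons i L ih =>
      rw [wd_cons]
      calc (refl i * wd L)ᵀ * S * (refl i * wd L) =
          (wd L)ᵀ * ((refl i)ᵀ * S * refl i) * wd L := by
            simp only [transpose_mul, Matrix.mul_assoc]
        _ = S := by rw [refl_isom, ih]
  exact Z_of_Gam (γ := mkG (wd L) h1) ⟨L, h, rfl⟩

lemma Z_mul {a b : M5} (ha : a ∈ Z) (hb : b ∈ Z) : a * b ∈ Z := by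
  intro f hf hf0
  have h1 : ∀ γ : GL (Fin 5) ℝ, γ ∈ Gam → f (γ * b) = 0 := by
    intro γ hγ
    apply hb _ (mul_left_mem γ hf)
    intro δ hδ
    have := hf0 (γ * δ) (Gam.mul_mem hγ hδ)
    simpa using this
  exact ha _ (mul_right_mem b hf) h1

lemma Z_one : (1 : M5) ∈ Z := by
  have := Z_of_Gam Gam.one_mem
  simpa using this

lemma Z_adj {a : M5} (ha : a ∈ Z) : Si * aᵀ * S ∈ Z := by
  intro f hf hf0
  apply ha _ (adj_mem hf)
  intro γ hγ
  rw [← inv_val (SO32_le_Oq (Gam_le hγ))]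
  exact hf0 _ (Gam.inv_mem hγ)

lemma Z_closed : IsClosed Z := by
  have : Z = ⋂ f ∈ {f | f ∈ PF ∧ ∀ γ : GL (Fin 5) ℝ, γ ∈ Gam → f γ = 0}, {M : M5 | f M = 0} := by
    ext M
    simp only [Z, Set.mem_iInter, Set.mem_setOf_eq]
    exact ⟨fun h f hf => h f hf.1 hf.2, fun h f h1 h2 => h f ⟨h1, h2⟩⟩
  rw [this]
  exact isClosed_biInter fun f hf => isClosed_eq (cont_of_mem hf.1) continuous_const

/-- a polynomial function restricted to a polynomial path is a polynomial -/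
lemma poly_path {P : ℝ → M5} (hP : ∀ i j, ∃ p : ℝ[X], ∀ t, P t i j = p.eval t) {f : M5 → ℝ}
    (hf : f ∈ PF) : ∃ p : ℝ[X], ∀ t, f (P t) = p.eval t := by
  induction hf using Algebra.adjoin_induction with
  | mem x hx => obtain ⟨p, rfl⟩ := hx; exact hP p.1 p.2
  | algebraMap r => exact ⟨C r, fun t => by simp⟩
  | add x y _ _ hx hy =>
    obtain ⟨p, hp⟩ := hx
    obtain ⟨q, hq⟩ := hy
    exact ⟨p + q, fun t => by simp [hp, hq]⟩
  | mul x y _ _ hx hy =>
    obtain ⟨p, hp⟩ := hx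
    obtain ⟨q, hq⟩ := hy
    exact ⟨p * q, fun t => by simp [hp, hq]⟩

lemma E_poly (N : M5) (i j : Fin 5) : ∃ p : ℝ[X], ∀ t, E N t i j = p.eval t := by
  refine ⟨C ((1 : M5) i j) + X * C (N i j) + X ^ 2 * C ((N * N) i j / 2), fun t => ?_⟩
  simp [E]
  ring

lemma Z_of_E {N : M5} (h3 : N * N * N = 0) (h : E N 1 ∈ Z) (t : ℝ) : E N t ∈ Z := by
  have hn : ∀ n : ℕ, E N n ∈ Z := by
    intro n
    induction n with
    | zero => simpa [E_zero] using Z_one
    | succ n ih =>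
      have : E N ((n + 1 : ℕ) : ℝ) = E N n * E N 1 := by rw [E_add h3]; push_cast; rfl
      rw [this]
      exact Z_mul ih h
  intro f hf hf0
  obtain ⟨p, hp⟩ := poly_path (E_poly N) hf
  have hp0 : p = 0 := by
    apply Polynomial.eq_zero_of_infinite_isRoot
    apply Set.infinite_of_injective_forall_mem (f := fun n : ℕ => (n : ℝ)) Nat.cast_injective
    intro n
    change p.eval (n : ℝ) = 0
    rw [← hp]
    exact hn n f hf hf0
  rw [hp, hp0]
  simp

/-- diagonal matrices -/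
def D (a b : ℝ) : M5 := Matrix.diagonal ![a, a⁻¹, b, b⁻¹, 1]

lemma D_mul (a b c d : ℝ) : D a b * D c d = D (a * c) (b * d) := by
  simp only [D, diagonal_mul_diagonal]
  congr 1
  ext i
  fin_cases i <;> simp [mul_comm]

lemma D_one : D 1 1 = 1 := by
  rw [D, ← Matrix.diagonal_one]
  congr 1
  ext i
  fin_cases i <;> simp

lemma laurent_path (b : ℝ → ℝ → M5) (hb : ∀ i j, ∃ p : ℝ[X], ∀ s : ℝ, s ≠ 0 →
    s * b s s⁻¹ i j = p.eval s) {f : M5 → ℝ}
    (hf : f ∈ PF) : ∃ (p : ℝ[X]) (n : ℕ), ∀ s : ℝ, s ≠ 0 → s ^ n * f (b s s⁻¹) = p.eval s := by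
  induction hf using Algebra.adjoin_induction with
  | mem x hx =>
    obtain ⟨q, rfl⟩ := hx
    obtain ⟨p, hp⟩ := hb q.1 q.2
    exact ⟨p, 1, fun s hs => by simpa using hp s hs⟩
  | algebraMap r => exact ⟨C r, 0, fun t _ => by simp⟩
  | add x y _ _ hx hy =>
    obtain ⟨p, n, hp⟩ := hx
    obtain ⟨q, m, hq⟩ := hy
    refine ⟨X ^ m * p + X ^ n * q, n + m, fun t ht => ?_⟩
    simp only [Pi.add_apply, eval_add, eval_mul, eval_pow, eval_X]
    rw [← hp t ht, ← hq t ht]
    ring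
  | mul x y _ _ hx hy =>
    obtain ⟨p, n, hp⟩ := hx
    obtain ⟨q, m, hq⟩ := hy
    refine ⟨p * q, n + m, fun t ht => ?_⟩
    simp only [Pi.mul_apply, eval_mul]
    rw [← hp t ht, ← hq t ht]
    ring

lemma Z_of_laurent (b : ℝ → ℝ → M5) (hb : ∀ i j, ∃ p : ℝ[X], ∀ s : ℝ, s ≠ 0 →
    s * b s s⁻¹ i j = p.eval s) (c : ℝ) (hc0 : 0 < c) (hc1 : c < 1)
    (h : ∀ n : ℕ, b (c ^ n) (c ^ n)⁻¹ ∈ Z) (s : ℝ) (hs : s ≠ 0) : b s s⁻¹ ∈ Z := by
  intro f hf hf0
  obtain ⟨p, n, hp⟩ := laurent_path b hb hf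
  have hp0 : p = 0 := by
    apply Polynomial.eq_zero_of_infinite_isRoot
    apply Set.infinite_of_injective_forall_mem (f := fun n : ℕ => c ^ n)
      (pow_right_injective₀ hc0 hc1.ne)
    intro m
    change p.eval (c ^ m) = 0
    rw [← hp _ (pow_ne_zero _ hc0.ne')]
    rw [h m f hf hf0, mul_zero]
  have h1 := hp s hs
  rw [hp0, eval_zero] at h1
  exact (mul_eq_zero.mp h1).resolve_left (pow_ne_zero _ hs)

/-- the covectors of the roots -/
def Sr : Fin 5 → Fin 5 → ℝ :=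
  ![![1, 1, 0, 0, 0], ![-2/3, -3/2, 0, 0, 0], ![0, 0, 1, 1, 0], ![0, 0, -2/3, -3/2, 0],
    ![4, -6, 4, -6, 14]]

lemma S_root (i : Fin 5) : S *ᵥ root i = Sr i := by
  ext j
  fin_cases i <;> fin_cases j <;>
    simp [S, root, Sr, mulVec, dotProduct, Fin.sum_univ_five] <;> norm_num

lemma refl_apply (i a b : Fin 5) : refl i a b = (1 : M5) a b - root i a * Sr i b := by
  rw [refl, S_root, Matrix.sub_apply, vecMulVec_apply]

lemma refl01 : refl 0 * refl 1 = D (4/9) 1 := by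
  ext i j
  simp only [Matrix.mul_apply, Fin.sum_univ_five, refl_apply, D, Matrix.diagonal_apply]
  fin_cases i <;> fin_cases j <;> simp [root, Sr, Matrix.one_apply] <;> norm_num

lemma refl23 : refl 2 * refl 3 = D 1 (4/9) := by
  ext i j
  simp only [Matrix.mul_apply, Fin.sum_univ_five, refl_apply, D, Matrix.diagonal_apply]
  fin_cases i <;> fin_cases j <;> simp [root, Sr, Matrix.one_apply] <;> norm_num

lemma D1_mem {s : ℝ} (hs : s ≠ 0) : D s 1 ∈ Z := by
  have := Z_of_laurent (fun a c => Matrix.diagonal ![a, c, 1, 1, 1]) (by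
    intro i j
    by_cases hij : i = j
    · subst hij
      fin_cases i
      · exact ⟨X * X, fun s _ => by simp⟩
      · exact ⟨1, fun s hs => by simp [hs]⟩
      · exact ⟨X, fun s _ => by simp⟩
      · exact ⟨X, fun s _ => by simp⟩
      · exact ⟨X, fun s _ => by simp⟩
    · exact ⟨0, fun s _ => by simp [Matrix.diagonal_apply_ne _ hij]⟩) (4/9) (by norm_num)
      (by norm_num) (by
    intro n
    have h1 : ∀ n : ℕ, D ((4/9) ^ n) 1 ∈ Z := by
      intro n
      induction n with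
      | zero => simpa [D_one] using Z_one
      | succ n ih =>
        have h2 : D ((4/9) ^ (n + 1)) 1 = D ((4/9) ^ n) 1 * (refl 0 * refl 1) := by
          rw [refl01, D_mul, pow_succ]; simp
        rw [h2]
        apply Z_mul ih
        have := Z_of_even (L := [0, 1]) (by simp)
        simpa using this
    have := h1 n
    simpa [D] using this) s hs
  simpa [D] using this

/-- exchange of the two planes -/
def P : M5 := !![0, 0, 1, 0, 0; 0, 0, 0, 1, 0; 1, 0, 0, 0, 0; 0, 1, 0, 0, 0; 0, 0, 0, 0, 1]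

lemma P_mulVec (x : Fin 5 → ℝ) : P *ᵥ x = ![x 2, x 3, x 0, x 1, x 4] := by
  ext i
  fin_cases i <;> simp [P, mulVec, dotProduct, Fin.sum_univ_five]

lemma P_P (x : Fin 5 → ℝ) : P *ᵥ (P *ᵥ x) = x := by
  rw [P_mulVec, P_mulVec]
  ext i
  fin_cases i <;> simp

lemma P_sq : P * P = 1 := by
  apply Matrix.ext_of_mulVec_single
  intro k
  rw [← mulVec_mulVec, P_P, one_mulVec]

lemma bil_P (x y : Fin 5 → ℝ) : bil (P *ᵥ x) y = bil x (P *ᵥ y) := by
  rw [P_mulVec, P_mulVec]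
  simp [bil]
  ring

/-- the induced permutation of the roots -/
def τ : Fin 5 → Fin 5 := ![2, 3, 0, 1, 4]

lemma P_root (i : Fin 5) : P *ᵥ root i = root (τ i) := by
  rw [P_mulVec]
  ext j
  fin_cases i <;> fin_cases j <;> simp [τ, root]

lemma P_refl (i : Fin 5) : P * refl i * P = refl (τ i) := by
  apply Matrix.ext_of_mulVec_single
  intro k
  rw [← mulVec_mulVec, ← mulVec_mulVec, refl_mulVec, refl_mulVec, mulVec_sub, P_P, mulVec_smul,
    bil_P, P_root]

lemma P_wd (L : List (Fin 5)) : P * wd L * P = wd (L.map τ) := by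
  induction L with
  | nil => simp [P_sq]
  | cons i L ih =>
    rw [List.map_cons, wd_cons, wd_cons, ← ih, ← P_refl]
    calc P * (refl i * wd L) * P = P * refl i * (P * P) * wd L * P := by
          rw [P_sq]; simp only [Matrix.mul_assoc, Matrix.one_mul]
      _ = _ := by simp only [Matrix.mul_assoc]

lemma Z_P {a : M5} (ha : a ∈ Z) : P * a * P ∈ Z := by
  intro f hf hf0
  have h1 : (fun M : M5 => f (P * M * P)) ∈ PF := mul_left_mem P (f := fun M => f (M * P))
    (mul_right_mem P hf)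
  apply ha _ h1
  rintro γ ⟨L, hL, hγ⟩
  change f (P * γ * P) = 0
  rw [hγ, P_wd]
  exact Z_of_even (L := L.map τ) (by simpa using hL) f hf hf0

lemma P_D (a b : ℝ) : P * D a b * P = D b a := by
  ext i j
  simp only [Matrix.mul_apply, Fin.sum_univ_five, D, Matrix.diagonal_apply]
  fin_cases i <;> fin_cases j <;> simp [P]

lemma D_mem {a b : ℝ} (ha : a ≠ 0) (hb : b ≠ 0) : D a b ∈ Z := by
  have h1 := Z_mul (D1_mem ha) (Z_P (D1_mem hb))
  rw [P_D, D_mul] at h1
  simpa using h1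

end Pool.Agent.H56R2.CL
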