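import Mathlib
import Pool.Agent.H56R2.CL.Zar

/-!
The Zariski closure of `Γ` contains all root subgroups.
-/

set_option autoImplicit false

noncomputable section

open Matrix

namespace Pool.Agent.H56R2.CL

/-- basis vectors -/
def b0 : Fin 5 → ℝ := ![1, 0, 0, 0, 0]
/-- basis vectors -/
def b1 : Fin 5 → ℝ := ![0, 1, 0, 0, 0]
/-- basis vectors -/
def b2 : Fin 5 → ℝ := ![0, 0, 1, 0, 0]
/-- basis vectors -/
def b3 : Fin 5 → ℝ := ![0, 0, 0, 1, 0]

/-- part of the last root -/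
def vv : Fin 5 → ℝ := ![0, 0, -6, 4, 7]

lemma wedge_conj {g h : M5} (hgh : ∀ z y, bil (h *ᵥ z) y = bil z (g *ᵥ y)) (x y : Fin 5 → ℝ) :
    g * wedge x y * h = wedge (g *ᵥ x) (g *ᵥ y) := by
  apply Matrix.ext_of_mulVec_single
  intro k
  rw [← mulVec_mulVec, ← mulVec_mulVec, wedge_mulVec, wedge_mulVec, mulVec_sub, mulVec_smul,
    mulVec_smul, hgh, hgh]

lemma E_conj {g h : M5} (hgh : h * g = 1) (N : M5) (t : ℝ) :
    g * E N t * h = E (g * N * h) t := by
  have h1 : g * h = 1 := mul_eq_one_comm.mp hgh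
  have h2 : g * N * h * (g * N * h) = g * (N * N) * h := by
    calc g * N * h * (g * N * h) = g * N * (h * g) * N * h := by simp only [Matrix.mul_assoc]
      _ = _ := by rw [hgh]; simp only [Matrix.mul_assoc, Matrix.one_mul]
  simp only [E, Matrix.mul_add, Matrix.add_mul, Matrix.mul_one, Matrix.mul_smul, Matrix.smul_mul]
  rw [h1, h2]

lemma E_smul (N : M5) (c t : ℝ) : E (c • N) t = E N (c * t) := by
  simp only [E, Matrix.smul_mul, Matrix.mul_smul, smul_smul]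
  congr 2
  · ring_nf
  · ring_nf

lemma D_mulVec (a b : ℝ) (x : Fin 5 → ℝ) :
    D a b *ᵥ x = ![a * x 0, a⁻¹ * x 1, b * x 2, b⁻¹ * x 3, x 4] := by
  ext i
  simp only [D, mulVec_diagonal]
  fin_cases i <;> simp

lemma D_adj {a b : ℝ} (x y : Fin 5 → ℝ) :
    bil (D a⁻¹ b⁻¹ *ᵥ x) y = bil x (D a b *ᵥ y) := by
  rw [D_mulVec, D_mulVec]
  simp [bil]
  ring

lemma D_inv {a b : ℝ} (ha : a ≠ 0) (hb : b ≠ 0) : D a⁻¹ b⁻¹ * D a b = 1 := by
  rw [D_mul, inv_mul_cancel₀ ha, inv_mul_cancel₀ hb, D_one]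

lemma wedge_add_left (x y z : Fin 5 → ℝ) : wedge (x + y) z = wedge x z + wedge y z := by
  apply Matrix.ext_of_mulVec_single
  intro k
  rw [add_mulVec, wedge_mulVec, wedge_mulVec, wedge_mulVec, bil_symm _ (x + y), bil_add_left,
    bil_symm x, bil_symm y]
  module

lemma wedge_swap (x y : Fin 5 → ℝ) : wedge x y = - wedge y x := by
  simp [wedge]

lemma wedge_smul_left (c : ℝ) (x y : Fin 5 → ℝ) : wedge (c • x) y = c • wedge x y := by
  apply Matrix.ext_of_mulVec_single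
  intro k
  rw [smul_mulVec, wedge_mulVec, wedge_mulVec, bil_symm _ (c • x), bil_smul_left, bil_symm x]
  module

lemma wedge_smul_right (c : ℝ) (x y : Fin 5 → ℝ) : wedge x (c • y) = c • wedge x y := by
  rw [wedge_swap, wedge_smul_left, wedge_swap y x]; simp

lemma wedge_add_right (x y z : Fin 5 → ℝ) : wedge x (y + z) = wedge x y + wedge x z := by
  rw [wedge_swap, wedge_add_left, wedge_swap y x, wedge_swap z x]; abel

lemma wedge_self (x : Fin 5 → ℝ) : wedge x x = 0 := by simp [wedge]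

lemma root4_eq : root 4 = (-6 : ℝ) • b0 + (4 : ℝ) • b1 + vv := by
  ext i; fin_cases i <;> simp [root, b0, b1, vv]

lemma root0_eq : root 0 = b0 + b1 := by
  ext i; fin_cases i <;> simp [root, b0, b1]

/-- first degeneration -/
lemma conj_NN0 {r : ℝ} (hr : r ≠ 0) :
    D r⁻¹ 1 * NN 0 * D r 1 =
      r⁻¹ • (wedge vv b0 + (-10 * r) • wedge b0 b1 + r ^ 2 • wedge vv b1) := by
  have h0 : D r⁻¹ 1 *ᵥ b0 = r⁻¹ • b0 := by
    rw [D_mulVec]; ext i; fin_cases i <;> simp [b0]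
  have h1 : D r⁻¹ 1 *ᵥ b1 = r • b1 := by
    rw [D_mulVec]; ext i; fin_cases i <;> simp [b1]
  have hv : D r⁻¹ 1 *ᵥ vv = vv := by
    rw [D_mulVec]; ext i; fin_cases i <;> simp [vv]
  have h := wedge_conj (g := D r⁻¹ 1) (h := D r 1) (by
    intro z y
    have := D_adj (a := r⁻¹) (b := 1) z y
    simpa using this) (root 4) (root 0)
  rw [NN, h, root4_eq, root0_eq, mulVec_add, mulVec_add, mulVec_add, mulVec_smul, mulVec_smul,
    h0, h1, hv]
  simp only [wedge_add_left, wedge_add_right, wedge_smul_left, wedge_smul_right, wedge_self,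
    wedge_swap b1 b0, smul_add, smul_neg, smul_zero, smul_smul, add_zero, zero_add]
  have e1 : r⁻¹ * r ^ 2 = r := by field_simp
  have e2 : r⁻¹ * (-10 * r) = -10 := by field_simp
  have e3 : r⁻¹ * r = 1 := by field_simp
  have e4 : r * r⁻¹ = 1 := by field_simp
  rw [e1, e2]
  have e5 : -6 * r⁻¹ * r = -6 := by field_simp
  have e6 : r * (-6 * r⁻¹) = -6 := by field_simp
  have e7 : r⁻¹ * (4 * r) = 4 := by field_simp
  simp only [e5, e6, e7]
  module

/-- second degeneration -/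
lemma conj_NN0' {r : ℝ} (hr : r ≠ 0) :
    D r 1 * NN 0 * D r⁻¹ 1 =
      r⁻¹ • (wedge vv b1 + (-10 * r) • wedge b0 b1 + r ^ 2 • wedge vv b0) := by
  have h0 : D r 1 *ᵥ b0 = r • b0 := by
    rw [D_mulVec]; ext i; fin_cases i <;> simp [b0]
  have h1 : D r 1 *ᵥ b1 = r⁻¹ • b1 := by
    rw [D_mulVec]; ext i; fin_cases i <;> simp [b1]
  have hv : D r 1 *ᵥ vv = vv := by
    rw [D_mulVec]; ext i; fin_cases i <;> simp [vv]
  have h := wedge_conj (g := D r 1) (h := D r⁻¹ 1) (by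
    intro z y
    have := D_adj (a := r) (b := 1) z y
    simpa using this) (root 4) (root 0)
  rw [NN, h, root4_eq, root0_eq, mulVec_add, mulVec_add, mulVec_add, mulVec_smul, mulVec_smul,
    h0, h1, hv]
  simp only [wedge_add_left, wedge_add_right, wedge_smul_left, wedge_smul_right, wedge_self,
    wedge_swap b1 b0, smul_add, smul_neg, smul_zero, smul_smul, add_zero, zero_add]
  have e1 : r⁻¹ * r ^ 2 = r := by field_simp
  have e2 : r⁻¹ * (-10 * r) = -10 := by field_simp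
  rw [e1, e2]
  have e5 : -6 * r * r⁻¹ = -6 := by field_simp
  have e6 : r⁻¹ * (-6 * r) = -6 := by field_simp
  have e7 : r * (4 * r⁻¹) = 4 := by field_simp
  simp only [e5, e6, e7]
  module

lemma limit_mem {A B C : M5} (h : ∀ r : ℝ, r ≠ 0 → E (A + (-10 * r) • B + r ^ 2 • C) 1 ∈ Z) :
    E A 1 ∈ Z := by
  have hc : Continuous fun r : ℝ => E (A + (-10 * r) • B + r ^ 2 • C) 1 := by
    unfold E
    fun_prop
  have h1 : IsClosed {r : ℝ | E (A + (-10 * r) • B + r ^ 2 • C) 1 ∈ Z} := Z_closed.preimage hc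
  have h2 : Dense ({0}ᶜ : Set ℝ) := dense_compl_singleton 0
  have h3 : {r : ℝ | E (A + (-10 * r) • B + r ^ 2 • C) 1 ∈ Z} = Set.univ := by
    apply Set.eq_univ_of_univ_subset
    rw [← h2.closure_eq]
    exact h1.closure_subset_iff.mpr fun r hr => h r hr
  have h4 : (0 : ℝ) ∈ {r : ℝ | E (A + (-10 * r) • B + r ^ 2 • C) 1 ∈ Z} := by
    rw [h3]; trivial
  simpa using h4

lemma E_NN0_mem (t : ℝ) : E (NN 0) t ∈ Z := by
  apply Z_of_E (NN_cube (by decide))
  rw [E_NN (by decide)]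
  have := Z_of_even (L := [0, 4]) (by simp)
  simpa using this

lemma vv_b0 (c : ℝ) : E (c • wedge vv b0) 1 ∈ Z := by
  apply limit_mem (B := c • wedge b0 b1) (C := c • wedge vv b1)
  intro r hr
  have h1 := Z_mul (Z_mul (D_mem (inv_ne_zero hr) one_ne_zero) (E_NN0_mem (c * r)))
    (D_mem hr one_ne_zero)
  rw [E_conj (by rw [D_mul, mul_inv_cancel₀ hr]; simpa using D_one), conj_NN0 hr, E_smul] at h1
  have h2 : r⁻¹ * (c * r) = c * 1 := by field_simp
  rw [h2, ← E_smul] at h1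
  convert h1 using 2
  module

lemma vv_b1 (c : ℝ) : E (c • wedge vv b1) 1 ∈ Z := by
  apply limit_mem (B := c • wedge b0 b1) (C := c • wedge vv b0)
  intro r hr
  have h1 := Z_mul (Z_mul (D_mem hr one_ne_zero) (E_NN0_mem (c * r)))
    (D_mem (inv_ne_zero hr) one_ne_zero)
  rw [E_conj (by rw [D_mul, inv_mul_cancel₀ hr]; simpa using D_one), conj_NN0' hr, E_smul] at h1
  have h2 : r⁻¹ * (c * r) = c * 1 := by field_simp
  rw [h2, ← E_smul] at h1
  convert h1 using 2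
  module

lemma E_wedge_mulVec {b y : Fin 5 → ℝ} (hb : bil b b = 0) (hy : bil y b = 0) (z : Fin 5 → ℝ) :
    E (wedge y b) 1 *ᵥ z = z + bil z b • y - (bil z y + 1 / 2 * (bil z b * bil y y)) • b := by
  rw [E, add_mulVec, add_mulVec, one_mulVec, smul_mulVec, smul_mulVec, ← mulVec_mulVec,
    wedge_mulVec _ _ (wedge _ _ *ᵥ z), bil_wedge, bil_wedge, wedge_mulVec, bil_symm b y, hb, hy]
  module

lemma E_wedge_add {b y y' : Fin 5 → ℝ} (hb : bil b b = 0) (hy : bil y b = 0)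
    (hy' : bil y' b = 0) :
    E (wedge y b) 1 * E (wedge y' b) 1 = E (wedge (y + y') b) 1 := by
  apply Matrix.ext_of_mulVec_single
  intro k
  have h1 : bil (y + y') b = 0 := by rw [bil_add_left, hy, hy', add_zero]
  rw [← mulVec_mulVec, E_wedge_mulVec hb hy', E_wedge_mulVec hb hy, E_wedge_mulVec hb h1]
  set z : Fin 5 → ℝ := Pi.single k 1
  rw [bil_sub_left, bil_add_left, bil_smul_left, bil_smul_left, hb, hy', bil_sub_left,
    bil_add_left, bil_smul_left, bil_smul_left, bil_symm b y, hy, bil_symm z (y + y'),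
    bil_add_left, bil_symm y z, bil_symm y' z, bil_add_left y y' (y + y'), bil_symm y (y + y'),
    bil_symm y' (y + y'), bil_add_left, bil_add_left]
  rw [bil_symm y' y]
  module

lemma span_mem {b : Fin 5 → ℝ} (hb2 : b 2 = 0) (hb3 : b 3 = 0) (hb4 : b 4 = 0)
    (hb01 : b 0 * b 1 = 0) (h : ∀ c : ℝ, E (c • wedge vv b) 1 ∈ Z) {y : Fin 5 → ℝ}
    (hy0 : y 0 = 0) (hy1 : y 1 = 0) : E (wedge y b) 1 ∈ Z := by
  have hbb : bil b b = 0 := by
    simp only [bil, hb2, hb3, hb4]; linear_combination 2 * hb01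
  have horth : ∀ y : Fin 5 → ℝ, y 0 = 0 → y 1 = 0 → bil y b = 0 := by
    intro y h0 h1
    simp only [bil, hb2, hb3, hb4, h0, h1]; ring
  have h1 : ∀ c s : ℝ, s ≠ 0 → E (wedge (c • ![0, 0, -6 * s, 4 * s⁻¹, 7]) b) 1 ∈ Z := by
    intro c s hs
    have h2 := Z_mul (Z_mul (D_mem one_ne_zero hs) (h c)) (D_mem one_ne_zero (inv_ne_zero hs))
    rw [E_conj (by rw [D_mul, inv_mul_cancel₀ hs]; simpa using D_one), Matrix.mul_smul,
      Matrix.smul_mul, wedge_conj (by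
        intro z y
        have := D_adj (a := 1) (b := s) z y
        simpa using this)] at h2
    have h3 : D 1 s *ᵥ b = b := by
      rw [D_mulVec]; ext i; fin_cases i <;> simp [hb2, hb3]
    have h4 : D 1 s *ᵥ vv = ![0, 0, -6 * s, 4 * s⁻¹, 7] := by
      rw [D_mulVec]; ext i; fin_cases i <;> simp [vv] <;> ring
    rw [h3, h4, ← wedge_smul_left] at h2
    exact h2
  set d : ℝ := (y 2 + 6 * y 3) / 18 with hd
  set c3 : ℝ := (y 3 - 4 * d) / 2 with hc3
  set e : ℝ := y 4 / 7 - c3 with he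
  have hy : y = ((e + d) / 2) • ![0, 0, -6 * (1 : ℝ), 4 * (1 : ℝ)⁻¹, 7] +
      ((e - d) / 2) • ![0, 0, -6 * (-1 : ℝ), 4 * (-1 : ℝ)⁻¹, 7] +
      c3 • ![0, 0, -6 * (2 : ℝ), 4 * (2 : ℝ)⁻¹, 7] := by
    ext i
    fin_cases i
    · simp [hy0]
    · simp [hy1]
    · simp [hd, hc3, he]; ring
    · simp [hd, hc3, he]; ring
    · simp [hd, hc3, he]; ring
  have m1 := h1 ((e + d) / 2) 1 one_ne_zero
  have m2 := h1 ((e - d) / 2) (-1) (by norm_num)
  have m3 := h1 c3 2 two_ne_zero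
  have o1 : bil (((e + d) / 2) • ![0, 0, -6 * (1 : ℝ), 4 * (1 : ℝ)⁻¹, 7]) b = 0 :=
    horth _ (by simp) (by simp)
  have o2 : bil (((e - d) / 2) • ![0, 0, -6 * (-1 : ℝ), 4 * (-1 : ℝ)⁻¹, 7]) b = 0 :=
    horth _ (by simp) (by simp)
  have o3 : bil (c3 • ![0, 0, -6 * (2 : ℝ), 4 * (2 : ℝ)⁻¹, 7]) b = 0 :=
    horth _ (by simp) (by simp)
  have h5 := Z_mul (Z_mul m1 m2) m3
  rw [E_wedge_add hbb o1 o2, E_wedge_add hbb (by rw [bil_add_left, o1, o2, add_zero]) o3,
    ← hy] at h5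
  exact h5

lemma root_mem_b0 {y : Fin 5 → ℝ} (hy0 : y 0 = 0) (hy1 : y 1 = 0) (t : ℝ) :
    E (wedge y b0) t ∈ Z := by
  have : E (wedge y b0) t = E (wedge (t • y) b0) 1 := by
    rw [wedge_smul_left, E_smul, mul_one]
  rw [this]
  exact span_mem (by simp [b0]) (by simp [b0]) (by simp [b0]) (by simp [b0]) vv_b0
    (by simp [hy0]) (by simp [hy1])

lemma root_mem_b1 {y : Fin 5 → ℝ} (hy0 : y 0 = 0) (hy1 : y 1 = 0) (t : ℝ) :
    E (wedge y b1) t ∈ Z := by
  have : E (wedge y b1) t = E (wedge (t • y) b1) 1 := by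
    rw [wedge_smul_left, E_smul, mul_one]
  rw [this]
  exact span_mem (by simp [b1]) (by simp [b1]) (by simp [b1]) (by simp [b1]) vv_b1
    (by simp [hy0]) (by simp [hy1])

lemma P_E (x y : Fin 5 → ℝ) (t : ℝ) : P * E (wedge x y) t * P = E (wedge (P *ᵥ x) (P *ᵥ y)) t := by
  rw [E_conj P_sq, wedge_conj bil_P]

lemma root_mem_b2 (t : ℝ) : E (wedge e4 b2) t ∈ Z := by
  have h := Z_P (root_mem_b0 (y := e4) (by simp [e4]) (by simp [e4]) t)
  rw [P_E] at h
  have h1 : P *ᵥ e4 = e4 := by rw [P_mulVec]; ext i; fin_cases i <;> simp [e4]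
  have h2 : P *ᵥ b0 = b2 := by rw [P_mulVec]; ext i; fin_cases i <;> simp [b0, b2]
  rwa [h1, h2] at h

lemma root_mem_b3 (t : ℝ) : E (wedge e4 b3) t ∈ Z := by
  have h := Z_P (root_mem_b1 (y := e4) (by simp [e4]) (by simp [e4]) t)
  rw [P_E] at h
  have h1 : P *ᵥ e4 = e4 := by rw [P_mulVec]; ext i; fin_cases i <;> simp [e4]
  have h2 : P *ᵥ b1 = b3 := by rw [P_mulVec]; ext i; fin_cases i <;> simp [b1, b3]
  rwa [h1, h2] at h

end Pool.Agent.H56R2.CL
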