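import Mathlib
import Pool.Agent.H56R2.CL.Root

/-!
The identity component is contained in the Zariski closure of `Γ` (big cell decomposition).
-/

set_option autoImplicit false

noncomputable section

open Matrix

namespace Pool.Agent.H56R2.CL

lemma mv_b0 (M : M5) (i : Fin 5) : (M *ᵥ b0) i = M i 0 := by
  simp [mulVec, dotProduct, Fin.sum_univ_five, b0]

lemma mv_b1 (M : M5) (i : Fin 5) : (M *ᵥ b1) i = M i 1 := by
  simp [mulVec, dotProduct, Fin.sum_univ_five, b1]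

lemma mv_b2 (M : M5) (i : Fin 5) : (M *ᵥ b2) i = M i 2 := by
  simp [mulVec, dotProduct, Fin.sum_univ_five, b2]

lemma mv_b3 (M : M5) (i : Fin 5) : (M *ᵥ b3) i = M i 3 := by
  simp [mulVec, dotProduct, Fin.sum_univ_five, b3]

lemma mv_e4 (M : M5) (i : Fin 5) : (M *ᵥ e4) i = M i 4 := by
  simp [mulVec, dotProduct, Fin.sum_univ_five, e4]

lemma isoM_bil {M : M5} (h : M ∈ isoM) (x y : Fin 5 → ℝ) : bil (M *ᵥ x) (M *ᵥ y) = bil x y := by
  have h' : Mᵀ * S * M = S := h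
  rw [bil_eq, bil_eq, ← vecMul_transpose, ← dotProduct_mulVec, mulVec_mulVec, mulVec_mulVec, h']

lemma isoM_mul {M N : M5} (hM : M ∈ isoM) (hN : N ∈ isoM) : M * N ∈ isoM := by
  have h1 : Mᵀ * S * M = S := hM
  have h2 : Nᵀ * S * N = S := hN
  change (M * N)ᵀ * S * (M * N) = S
  calc (M * N)ᵀ * S * (M * N) = Nᵀ * (Mᵀ * S * M) * N := by
        simp only [transpose_mul, Matrix.mul_assoc]
    _ = S := by rw [h1, h2]

lemma isoM_det {M : M5} (hM : M ∈ isoM) : M.det * M.det = 1 := by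
  have h1 : Mᵀ * S * M = S := hM
  have h2 : (Si * Mᵀ * S) * M = 1 := inv_left h1
  have h3 := congrArg Matrix.det h2
  rw [det_mul, det_mul, det_mul, det_transpose, det_one] at h3
  have h4 : Si.det * S.det = 1 := by rw [← det_mul, Si_mul_S, det_one]
  linear_combination h3 - (M.det * M.det) * h4

/-- isometries with positive determinant whose inverse is in the Zariski closure -/
def Good (u : M5) : Prop := (u ∈ isoM ∧ 0 < u.det) ∧ ∃ u' ∈ Z, u' * u = 1

lemma reduce {u M : M5} (hu : Good u) (h : u * M ∈ Z) : M ∈ Z := by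
  obtain ⟨-, u', hu', h1⟩ := hu
  have : M = u' * (u * M) := by rw [← Matrix.mul_assoc, h1, Matrix.one_mul]
  rw [this]
  exact Z_mul hu' h

lemma good_E {N : M5} (h3 : N * N * N = 0) (hs : Skew N) (hZ : ∀ t, E N t ∈ Z) (t : ℝ) :
    Good (E N t) := by
  refine ⟨⟨E_isom h3 hs t, ?_⟩, E N (-t), hZ _, ?_⟩
  · have h1 : E N (t / 2) ∈ isoM := E_isom h3 hs _
    have h2 : E N t = E N (t / 2) * E N (t / 2) := by rw [E_add h3]; congr 1; ring
    rw [h2, det_mul, isoM_det h1]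
    exact one_pos
  · rw [E_add h3]
    simp [E_zero]

lemma D_isoM {a b : ℝ} (ha : a ≠ 0) (hb : b ≠ 0) : D a b ∈ isoM := by
  change (D a b)ᵀ * S * D a b = S
  ext i j
  simp only [Matrix.mul_apply, Fin.sum_univ_five, D, diagonal_transpose, Matrix.diagonal_apply, S]
  fin_cases i <;> fin_cases j <;> simp [ha, hb]

lemma D_det {a b : ℝ} (ha : a ≠ 0) (hb : b ≠ 0) : (D a b).det = 1 := by
  rw [D, det_diagonal, Fin.prod_univ_five]
  simp [ha, hb]

lemma good_D {a b : ℝ} (ha : a ≠ 0) (hb : b ≠ 0) : Good (D a b) := by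
  refine ⟨⟨D_isoM ha hb, ?_⟩, D a⁻¹ b⁻¹, D_mem (inv_ne_zero ha) (inv_ne_zero hb), D_inv ha hb⟩
  rw [D_det ha hb]
  exact one_pos

lemma wedge_nilp' {b y : Fin 5 → ℝ} (hb : bil b b = 0) (hy : bil y b = 0) :
    wedge y b * wedge y b * wedge y b = 0 := by
  apply wedge_nilp
  rw [hb, hy]; ring

lemma bil_b0 (x : Fin 5 → ℝ) : bil x b0 = x 1 := by simp [bil, b0]
lemma bil_b1 (x : Fin 5 → ℝ) : bil x b1 = x 0 := by simp [bil, b1]
lemma bil_b2 (x : Fin 5 → ℝ) : bil x b2 = x 3 := by simp [bil, b2]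
lemma bil_b3 (x : Fin 5 → ℝ) : bil x b3 = x 2 := by simp [bil, b3]
lemma bil_e4 (x : Fin 5 → ℝ) : bil x e4 = 2 * x 4 := by simp [bil, e4]

lemma good_b0 {y : Fin 5 → ℝ} (hy0 : y 0 = 0) (hy1 : y 1 = 0) : Good (E (wedge y b0) 1) :=
  good_E (wedge_nilp' (by rw [bil_b0]; simp [b0]) (by rw [bil_b0, hy1])) (wedge_skew _ _)
    (root_mem_b0 hy0 hy1) 1

lemma good_b1 {y : Fin 5 → ℝ} (hy0 : y 0 = 0) (hy1 : y 1 = 0) : Good (E (wedge y b1) 1) :=
  good_E (wedge_nilp' (by rw [bil_b1]; simp [b1]) (by rw [bil_b1, hy0])) (wedge_skew _ _)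
    (root_mem_b1 hy0 hy1) 1

lemma good_b2 (s : ℝ) : Good (E (wedge e4 b2) s) :=
  good_E (wedge_nilp' (by rw [bil_b2]; simp [b2]) (by rw [bil_b2]; simp [e4])) (wedge_skew _ _)
    root_mem_b2 s

lemma good_b3 (s : ℝ) : Good (E (wedge e4 b3) s) :=
  good_E (wedge_nilp' (by rw [bil_b3]; simp [b3]) (by rw [bil_b3]; simp [e4])) (wedge_skew _ _)
    root_mem_b3 s

lemma E_scale (y b : Fin 5 → ℝ) (s : ℝ) : E (wedge y b) s = E (wedge (s • y) b) 1 := by
  rw [wedge_smul_left, E_smul, mul_one]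

/-- last step -/
lemma step5 {M : M5} (hM : M ∈ isoM) (hd : 0 < M.det) (h0 : M *ᵥ b0 = b0) (h1 : M *ᵥ b1 = b1)
    (h2 : M *ᵥ b2 = b2) (h3 : M *ᵥ b3 = b3) : M = 1 := by
  have e0 : M 0 4 = 0 := by
    have := isoM_bil hM e4 b1
    rw [h1, bil_b1, bil_b1, mv_e4] at this
    rw [this]; simp [e4]
  have e1 : M 1 4 = 0 := by
    have := isoM_bil hM e4 b0
    rw [h0, bil_b0, bil_b0, mv_e4] at this
    rw [this]; simp [e4]
  have e2 : M 2 4 = 0 := by
    have := isoM_bil hM e4 b3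
    rw [h3, bil_b3, bil_b3, mv_e4] at this
    rw [this]; simp [e4]
  have e3 : M 3 4 = 0 := by
    have := isoM_bil hM e4 b2
    rw [h2, bil_b2, bil_b2, mv_e4] at this
    rw [this]; simp [e4]
  have hdiag : M = Matrix.diagonal ![1, 1, 1, 1, M 4 4] := by
    ext i j
    have c0 := mv_b0 M i
    have c1 := mv_b1 M i
    have c2 := mv_b2 M i
    have c3 := mv_b3 M i
    rw [h0] at c0
    rw [h1] at c1
    rw [h2] at c2
    rw [h3] at c3
    fin_cases j
    · change M i 0 = _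
      rw [← c0]
      fin_cases i <;> simp [b0]
    · change M i 1 = _
      rw [← c1]
      fin_cases i <;> simp [b1]
    · change M i 2 = _
      rw [← c2]
      fin_cases i <;> simp [b2]
    · change M i 3 = _
      rw [← c3]
      fin_cases i <;> simp [b3]
    · change M i 4 = _
      fin_cases i
      · simpa using e0
      · simpa using e1
      · simpa using e2
      · simpa using e3
      · simp
  have hdet : M.det = M 4 4 := by
    conv_lhs => rw [hdiag]
    rw [det_diagonal, Fin.prod_univ_five]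
    simp
  have hsq := isoM_det hM
  rw [hdet] at hsq hd
  have h44 : M 4 4 = 1 := by nlinarith
  rw [hdiag, h44, ← Matrix.diagonal_one]
  congr 1
  ext i
  fin_cases i <;> simp

lemma step4 {M : M5} (hM : M ∈ isoM) (hd : 0 < M.det) (h0 : M *ᵥ b0 = b0) (h1 : M *ᵥ b1 = b1)
    (h2 : M *ᵥ b2 = b2) : M ∈ Z := by
  set w := M *ᵥ b3 with hw
  have w0 : w 0 = 0 := by
    have := isoM_bil hM b3 b1
    rw [h1, bil_b1, bil_b1] at this
    rw [hw, this]; simp [b3]
  have w1 : w 1 = 0 := by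
    have := isoM_bil hM b3 b0
    rw [h0, bil_b0, bil_b0] at this
    rw [hw, this]; simp [b3]
  have w3 : w 3 = 1 := by
    have := isoM_bil hM b3 b2
    rw [h2, bil_b2, bil_b2] at this
    rw [hw, this]; simp [b3]
  have ww : w 2 = - (w 4) ^ 2 := by
    have := isoM_bil hM b3 b3
    rw [← hw] at this
    simp [bil, w0, w1, w3, b3] at this
    linarith
  have hg := good_b2 (-(w 4))
  apply reduce hg
  have hact : ∀ z : Fin 5 → ℝ, E (wedge e4 b2) (-(w 4)) *ᵥ z =
      z + z 3 • (-(w 4)) • e4 - (-(w 4) * (2 * z 4) + (w 4) ^ 2 * z 3) • b2 := by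
    intro z
    rw [E_scale, E_wedge_mulVec (by rw [bil_b2]; simp [b2]) (by rw [bil_b2]; simp [e4])]
    simp only [bil_b2]
    have e1 : bil z (-(w 4) • e4) = -(w 4) * (2 * z 4) := by
      simp [bil, e4]; ring
    have e2 : bil (-(w 4) • e4) (-(w 4) • e4) = 2 * (w 4) ^ 2 := by
      simp [bil, e4]; ring
    rw [e1, e2]
    congr 2
    ring
  have := step5 (M := E (wedge e4 b2) (-(w 4)) * M) (isoM_mul hg.1.1 hM)
    (by rw [det_mul]; exact mul_pos hg.1.2 hd)
    (by rw [← mulVec_mulVec, h0, hact]; simp [b0])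
    (by rw [← mulVec_mulVec, h1, hact]; simp [b1])
    (by rw [← mulVec_mulVec, h2, hact]; simp [b2])
    (by
      rw [← mulVec_mulVec, ← hw, hact]
      ext i
      simp only [Pi.add_apply, Pi.sub_apply, Pi.smul_apply, smul_eq_mul]
      fin_cases i
      · simp [w0, e4, b2, b3]
      · simp [w1, e4, b2, b3]
      · simp [w3, e4, b2, b3, ww]; ring
      · simp [w3, e4, b2, b3]
      · simp [w3, e4, b2, b3])
  rw [this]
  exact Z_one

lemma step3 {M : M5} (hM : M ∈ isoM) (hd : 0 < M.det) (h0 : M *ᵥ b0 = b0) (h1 : M *ᵥ b1 = b1)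
    (h22 : M 2 2 ≠ 0) : M ∈ Z := by
  set w := M *ᵥ b2 with hw
  have w0 : w 0 = 0 := by
    have := isoM_bil hM b2 b1
    rw [h1, bil_b1, bil_b1] at this
    rw [hw, this]; simp [b2]
  have w1 : w 1 = 0 := by
    have := isoM_bil hM b2 b0
    rw [h0, bil_b0, bil_b0] at this
    rw [hw, this]; simp [b2]
  have w2 : w 2 ≠ 0 := by rw [hw, mv_b2]; exact h22
  have ww : w 2 * w 3 = - (w 4) ^ 2 := by
    have := isoM_bil hM b2 b2
    rw [← hw] at this
    simp [bil, w0, w1, b2] at this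
    linarith
  set s := -(w 4 / w 2) with hs
  have hg := good_b3 s
  apply reduce hg
  have hgD := good_D (a := 1) (b := (w 2)⁻¹) one_ne_zero (inv_ne_zero w2)
  apply reduce hgD
  have hact : ∀ z : Fin 5 → ℝ, E (wedge e4 b3) s *ᵥ z =
      z + z 2 • s • e4 - (s * (2 * z 4) + s ^ 2 * z 2) • b3 := by
    intro z
    rw [E_scale, E_wedge_mulVec (by rw [bil_b3]; simp [b3]) (by rw [bil_b3]; simp [e4])]
    simp only [bil_b3]
    have e1 : bil z (s • e4) = s * (2 * z 4) := by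
      simp [bil, e4]; ring
    have e2 : bil (s • e4) (s • e4) = 2 * s ^ 2 := by
      simp [bil, e4]; ring
    rw [e1, e2]
    congr 2
    ring
  apply step4 (isoM_mul hgD.1.1 (isoM_mul hg.1.1 hM))
    (by rw [det_mul, det_mul]; exact mul_pos hgD.1.2 (mul_pos hg.1.2 hd))
  · rw [← mulVec_mulVec, ← mulVec_mulVec, h0, hact, D_mulVec]
    ext i; fin_cases i <;> simp [b0]
  · rw [← mulVec_mulVec, ← mulVec_mulVec, h1, hact, D_mulVec]
    ext i; fin_cases i <;> simp [b1]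
  · rw [← mulVec_mulVec, ← mulVec_mulVec, ← hw, hact, D_mulVec]
    ext i
    simp only [Pi.add_apply, Pi.sub_apply, Pi.smul_apply, smul_eq_mul]
    fin_cases i
    · simp [w0, e4, b2, b3]
    · simp [w1, e4, b2, b3]
    · simp [e4, b2, b3, w2]
    · simp [e4, b2, b3, w2]
      rw [hs]
      field_simp
      linear_combination ww
    · simp [e4, b2, b3, w2]
      rw [hs]
      field_simp
      ring

lemma step2 {M : M5} (hM : M ∈ isoM) (hd : 0 < M.det) (h0 : M *ᵥ b0 = b0)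
    (h22 : M 2 2 ≠ 0) : M ∈ Z := by
  set w := M *ᵥ b1 with hw
  have w1 : w 1 = 1 := by
    have := isoM_bil hM b1 b0
    rw [h0, bil_b0, bil_b0] at this
    rw [hw, this]; simp [b1]
  have ww : w 0 + (w 2 * w 3 + (w 4) ^ 2) = 0 := by
    have := isoM_bil hM b1 b1
    rw [← hw] at this
    simp [bil, w1, b1] at this
    linarith
  set y : Fin 5 → ℝ := ![0, 0, -(w 2), -(w 3), -(w 4)] with hy
  have hg := good_b0 (y := y) (by simp [hy]) (by simp [hy])
  apply reduce hg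
  have hact : ∀ z : Fin 5 → ℝ, E (wedge y b0) 1 *ᵥ z =
      z + z 1 • y - (bil z y + 1 / 2 * (z 1 * bil y y)) • b0 := by
    intro z
    rw [E_wedge_mulVec (by rw [bil_b0]; simp [b0]) (by rw [bil_b0]; simp [hy])]
    simp only [bil_b0]
  apply step3 (isoM_mul hg.1.1 hM) (by rw [det_mul]; exact mul_pos hg.1.2 hd)
  · rw [← mulVec_mulVec, h0, hact]
    ext i; fin_cases i <;> simp [b0, bil, hy]
  · rw [← mulVec_mulVec, ← hw, hact]
    ext i
    simp only [Pi.add_apply, Pi.sub_apply, Pi.smul_apply, smul_eq_mul]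
    fin_cases i
    · simp [b0, b1, bil, hy, w1]
      linear_combination ww
    · simp [b0, b1, bil, hy, w1]
    · simp [b0, b1, bil, hy, w1]
    · simp [b0, b1, bil, hy, w1]
    · simp [b0, b1, bil, hy, w1]
  · have h22' : (E (wedge y b0) 1 * M) 2 2 = ((E (wedge y b0) 1 * M) *ᵥ b2) 2 :=
      (mv_b2 _ 2).symm
    rw [h22', ← mulVec_mulVec, hact]
    have h12 : (M *ᵥ b2) 1 = 0 := by
      have := isoM_bil hM b2 b0
      rw [h0, bil_b0, bil_b0] at this
      rw [this]; simp [b2]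
    rw [h12]
    simpa [b0, mv_b2] using h22

lemma mem_of_minor {M : M5} (hM : M ∈ isoM) (hd : 0 < M.det) (h00 : M 0 0 ≠ 0)
    (h22 : M 0 0 * M 2 2 - M 0 2 * M 2 0 ≠ 0) : M ∈ Z := by
  set w := M *ᵥ b0 with hw
  have w0 : w 0 ≠ 0 := by rw [hw, mv_b0]; exact h00
  have ww : w 0 * w 1 + (w 2 * w 3 + (w 4) ^ 2) = 0 := by
    have := isoM_bil hM b0 b0
    rw [← hw] at this
    simp [bil, b0] at this
    linarith
  set y : Fin 5 → ℝ := ![0, 0, -(w 2) / w 0, -(w 3) / w 0, -(w 4) / w 0] with hy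
  have hg := good_b1 (y := y) (by simp [hy]) (by simp [hy])
  apply reduce hg
  have hgD := good_D (a := (w 0)⁻¹) (b := 1) (inv_ne_zero w0) one_ne_zero
  apply reduce hgD
  have hact : ∀ z : Fin 5 → ℝ, E (wedge y b1) 1 *ᵥ z =
      z + z 0 • y - (bil z y + 1 / 2 * (z 0 * bil y y)) • b1 := by
    intro z
    rw [E_wedge_mulVec (by rw [bil_b1]; simp [b1]) (by rw [bil_b1]; simp [hy])]
    simp only [bil_b1]
  apply step2 (isoM_mul hgD.1.1 (isoM_mul hg.1.1 hM))
    (by rw [det_mul, det_mul]; exact mul_pos hgD.1.2 (mul_pos hg.1.2 hd))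
  · rw [← mulVec_mulVec, ← mulVec_mulVec, ← hw, hact, D_mulVec]
    ext i
    simp only [Pi.add_apply, Pi.sub_apply, Pi.smul_apply, smul_eq_mul]
    fin_cases i
    · simp [b0, b1, bil, hy, w0]
    · simp [b0, b1, bil, hy, w0]
      field_simp
      linear_combination 2 * ww
    · simp [b0, b1, bil, hy, w0]
      field_simp
      ring
    · simp [b0, b1, bil, hy, w0]
      field_simp
      ring
    · simp [b0, b1, bil, hy, w0]
      field_simp
      ring
  · have h22' : (D (w 0)⁻¹ 1 * (E (wedge y b1) 1 * M)) 2 2 =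
        ((D (w 0)⁻¹ 1 * (E (wedge y b1) 1 * M)) *ᵥ b2) 2 := (mv_b2 _ 2).symm
    rw [h22', ← mulVec_mulVec, ← mulVec_mulVec, hact, D_mulVec]
    have h02 : (M *ᵥ b2) 0 = M 0 2 := mv_b2 M 0
    have h2 : (M *ᵥ b2) 2 = M 2 2 := mv_b2 M 2
    have hw2 : w 2 = M 2 0 := mv_b0 M 2
    have hw0 : w 0 = M 0 0 := mv_b0 M 0
    set x := M *ᵥ b2 with hx
    have e : ((![(w 0)⁻¹ * (x + x 0 • y - (bil x y + 1 / 2 * (x 0 * bil y y)) • b1) 0,
      ((w 0)⁻¹)⁻¹ * (x + x 0 • y - (bil x y + 1 / 2 * (x 0 * bil y y)) • b1) 1,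
      1 * (x + x 0 • y - (bil x y + 1 / 2 * (x 0 * bil y y)) • b1) 2,
      1⁻¹ * (x + x 0 • y - (bil x y + 1 / 2 * (x 0 * bil y y)) • b1) 3,
      (x + x 0 • y - (bil x y + 1 / 2 * (x 0 * bil y y)) • b1) 4] : Fin 5 → ℝ)) 2 =
      1 * (x + x 0 • y - (bil x y + 1 / 2 * (x 0 * bil y y)) • b1) 2 := rfl
    rw [e]
    simp only [Pi.add_apply, Pi.sub_apply, Pi.smul_apply, smul_eq_mul]
    rw [h02, h2]
    have hy2 : y 2 = -(w 2) / w 0 := rfl
    have hb12 : b1 2 = 0 := rfl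
    rw [hy2, hb12, hw2, hw0]
    intro h
    apply h22
    field_simp at h
    linarith

/-- the isometries in the Zariski closure form a subgroup -/
def KZ : Subgroup Oq where
  carrier := {g | ((g : GL (Fin 5) ℝ) : M5) ∈ Z}
  one_mem' := Z_one
  mul_mem' := by
    intro a b ha hb
    exact Z_mul ha hb
  inv_mem' := by
    intro a ha
    have h1 := Z_adj ha
    rw [← inv_val a.2] at h1
    exact h1

lemma KZ_open : IsOpen (KZ : Set Oq) := by
  apply Subgroup.isOpen_of_mem_nhds KZ (g := 1)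
  have hval : Continuous (fun g : Oq => ((g : GL (Fin 5) ℝ) : M5)) :=
    Units.continuous_val.comp continuous_subtype_val
  have h1 : IsOpen {g : Oq | 0 < ((g : GL (Fin 5) ℝ) : M5).det} :=
    isOpen_lt continuous_const hval.matrix_det
  have h2 : IsOpen {g : Oq | ((g : GL (Fin 5) ℝ) : M5) 0 0 ≠ 0} :=
    isOpen_ne_fun (hval.matrix_elem 0 0) continuous_const
  have h3 : IsOpen {g : Oq | ((g : GL (Fin 5) ℝ) : M5) 0 0 * ((g : GL (Fin 5) ℝ) : M5) 2 2 -
      ((g : GL (Fin 5) ℝ) : M5) 0 2 * ((g : GL (Fin 5) ℝ) : M5) 2 0 ≠ 0} :=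
    isOpen_ne_fun (((hval.matrix_elem 0 0).mul (hval.matrix_elem 2 2)).sub
      ((hval.matrix_elem 0 2).mul (hval.matrix_elem 2 0))) continuous_const
  have h4 := (h1.inter (h2.inter h3)).mem_nhds (x := (1 : Oq)) (by
    refine ⟨?_, ?_, ?_⟩
    · simp
    · simp
    · simp)
  apply Filter.mem_of_superset h4
  rintro g ⟨g1, g2, g3⟩
  exact mem_of_minor g.2 g1 g2 g3

/-- the identity component lies in the Zariski closure of `Γ` -/
theorem SO32_mem_Z {g : GL (Fin 5) ℝ} (hg : g ∈ SO32) : (g : M5) ∈ Z := by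
  obtain ⟨g, hg, rfl⟩ := hg
  have h1 : IsClopen (KZ : Set Oq) := ⟨KZ.isClosed_of_isOpen KZ_open, KZ_open⟩
  have h2 : connectedComponent (1 : Oq) ⊆ KZ := h1.connectedComponent_subset KZ.one_mem
  exact h2 hg

end Pool.Agent.H56R2.CL
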