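import Mathlib
import Pool.Agent.H56R2.CL.Dense

/-!
The diagonal Cartan subgroup of `SO_0(3,2)` and its intersection with `Γ`.
-/

set_option autoImplicit false

noncomputable section

open Matrix

namespace Pool.Agent.H56R2.CL

/-- positive diagonal isometries -/
def dd (x : Fin 2 → ℝ) : GL (Fin 5) ℝ :=
  mkG (D (Real.exp (x 0)) (Real.exp (x 1))) (D_isoM (Real.exp_ne_zero _) (Real.exp_ne_zero _))

lemma coe_dd (x : Fin 2 → ℝ) : (dd x : M5) = D (Real.exp (x 0)) (Real.exp (x 1)) := rfl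

lemma dd_add (x y : Fin 2 → ℝ) : dd (x + y) = dd x * dd y := by
  apply Units.ext
  rw [GeneralLinearGroup.coe_mul, coe_dd, coe_dd, coe_dd, D_mul, ← Real.exp_add, ← Real.exp_add]
  rfl

lemma dd_zero : dd 0 = 1 := by
  apply Units.ext
  rw [coe_dd]
  simp [D_one]

lemma dd_neg (x : Fin 2 → ℝ) : dd (-x) = (dd x)⁻¹ := by
  rw [eq_inv_iff_mul_eq_one, ← dd_add, neg_add_cancel, dd_zero]

/-- The diagonal matrices `diag(eˢ, e⁻ˢ, eᵗ, e⁻ᵗ, 1)`. -/
def AA : Subgroup (GL (Fin 5) ℝ) where
  carrier := Set.range dd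
  one_mem' := ⟨0, dd_zero⟩
  mul_mem' := by
    rintro _ _ ⟨x, rfl⟩ ⟨y, rfl⟩
    exact ⟨x + y, dd_add x y⟩
  inv_mem' := by
    rintro _ ⟨x, rfl⟩
    exact ⟨-x, dd_neg x⟩

lemma D_cont {f g : (Fin 2 → ℝ) → ℝ} (hf : Continuous f) (hg : Continuous g) :
    Continuous fun x => D (Real.exp (f x)) (Real.exp (g x)) := by
  unfold D
  apply Continuous.matrix_diagonal
  apply continuous_pi
  intro i
  fin_cases i
  · simp; fun_prop
  · simp only [← Real.exp_neg]; simp; fun_prop
  · simp; fun_prop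
  · simp only [← Real.exp_neg]; simp; fun_prop
  · simp; fun_prop

lemma dd_cont : Continuous dd := by
  have h1 : Continuous fun x : Fin 2 → ℝ => D (Real.exp (x 0)) (Real.exp (x 1)) :=
    D_cont (continuous_apply 0) (continuous_apply 1)
  rw [Units.continuous_iff]
  refine ⟨h1, ?_⟩
  change Continuous fun x : Fin 2 → ℝ => Si * (D (Real.exp (x 0)) (Real.exp (x 1)))ᵀ * S
  fun_prop

lemma dd_mem (x : Fin 2 → ℝ) : dd x ∈ SO32 := by
  have hf : Continuous fun t : ℝ => D (Real.exp ((t • x) 0)) (Real.exp ((t • x) 1)) := by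
    have h1 : Continuous fun x : Fin 2 → ℝ => D (Real.exp (x 0)) (Real.exp (x 1)) :=
      D_cont (continuous_apply 0) (continuous_apply 1)
    have h2 : Continuous fun t : ℝ => t • x := by fun_prop
    exact h1.comp h2
  have := mem_SO32_of_path _ hf (by simp [D_one])
    (fun t => D_isoM (Real.exp_ne_zero _) (Real.exp_ne_zero _)) 1
  convert this using 1
  apply Units.ext
  simp [coe_dd]

lemma AA_le : AA ≤ SO32 := by
  rintro _ ⟨x, rfl⟩
  exact dd_mem x

lemma AA_connected : IsConnected (AA : Set (GL (Fin 5) ℝ)) := by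
  change IsConnected (Set.range dd)
  exact isConnected_range dd_cont

lemma AA_diag : IsRDiagonalizable AA := by
  refine ⟨1, ?_⟩
  rintro _ ⟨x, rfl⟩
  simp only [inv_one, one_mul, mul_one]
  rw [coe_dd, D]
  exact isDiag_diagonal _

lemma pos_of_connected {B : Subgroup (GL (Fin 5) ℝ)} (hB : IsConnected (B : Set (GL (Fin 5) ℝ)))
    (i : Fin 5) (h : ∀ b ∈ B, (b : M5) i i ≠ 0) : ∀ b ∈ B, 0 < (b : M5) i i := by
  intro b hb
  by_contra hneg
  have hneg' : (b : M5) i i < 0 := lt_of_le_of_ne (not_lt.mp hneg) (h b hb)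
  have hc : Continuous fun g : GL (Fin 5) ℝ => (g : M5) i i :=
    Continuous.matrix_elem Units.continuous_val i i
  have h1 := hB.isPreconnected.intermediate_value hb B.one_mem hc.continuousOn
  have h2 : (0 : ℝ) ∈ Set.Icc ((b : M5) i i) (((1 : GL (Fin 5) ℝ) : M5) i i) := by
    constructor
    · exact hneg'.le
    · simp
  obtain ⟨c, hc1, hc2⟩ := h1 h2
  exact h c hc1 hc2

lemma diag_comm {X Y : M5} (hX : X.IsDiag) (hY : Y.IsDiag) : X * Y = Y * X := by
  have d1 := (isDiag_iff_diagonal_diag X).mp hX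
  have d2 := (isDiag_iff_diagonal_diag Y).mp hY
  rw [← d1, ← d2, diagonal_mul_diagonal, diagonal_mul_diagonal]
  congr 1
  ext i
  ring

/-- the regular element `diag(2,1/2,3,1/3,1)` -/
def areg : GL (Fin 5) ℝ := dd ![Real.log 2, Real.log 3]

lemma AA_max_of_comm (B : Subgroup (GL (Fin 5) ℝ)) (hBG : B ≤ SO32)
    (hBc : IsConnected (B : Set (GL (Fin 5) ℝ))) (hAB : AA ≤ B)
    (hcomm : ∀ b ∈ B, (b : M5) * (areg : M5) = (areg : M5) * (b : M5)) : B = AA := by
  apply le_antisymm _ hAB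
  have hav : (areg : M5) = Matrix.diagonal ![2, 1/2, 3, 1/3, 1] := by
    rw [areg, coe_dd, D]
    congr 1
    ext i
    fin_cases i <;> simp [Real.exp_log]
  have hdiag : ∀ b ∈ B, (b : M5) = Matrix.diagonal fun i => (b : M5) i i := by
    intro b hb
    ext i j
    by_cases hij : i = j
    · subst hij; simp
    · rw [diagonal_apply_ne _ hij]
      have h1 := congrFun (congrFun (hcomm b hb) i) j
      rw [hav, mul_diagonal, diagonal_mul] at h1
      have h2 : (![2, 1/2, 3, 1/3, 1] : Fin 5 → ℝ) j - (![2, 1/2, 3, 1/3, 1] : Fin 5 → ℝ) i ≠ 0 := by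
        fin_cases i <;> fin_cases j <;> first | exact absurd rfl hij | (simp; try norm_num)
      have h3 : ((![2, 1/2, 3, 1/3, 1] : Fin 5 → ℝ) j - (![2, 1/2, 3, 1/3, 1] : Fin 5 → ℝ) i) *
          (b : M5) i j = 0 := by linarith
      exact (mul_eq_zero.mp h3).resolve_left h2
  have hrel : ∀ b ∈ B, (b : M5) 0 0 * (b : M5) 1 1 = 1 ∧ (b : M5) 2 2 * (b : M5) 3 3 = 1 ∧
      (b : M5) 4 4 * (b : M5) 4 4 = 1 := by
    intro b hb
    have h1 : (b : M5)ᵀ * S * (b : M5) = S := SO32_le_Oq (hBG hb)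
    rw [hdiag b hb, diagonal_transpose] at h1
    have h01 := congrFun (congrFun h1 0) 1
    have h23 := congrFun (congrFun h1 2) 3
    have h44 := congrFun (congrFun h1 4) 4
    rw [mul_diagonal, diagonal_mul] at h01 h23 h44
    simp [S] at h01 h23 h44
    refine ⟨h01, h23, ?_⟩
    linarith
  intro b hb
  have p0 := pos_of_connected hBc 0 (fun b hb h => by
    have := (hrel b hb).1; rw [h, zero_mul] at this; exact zero_ne_one this) b hb
  have p2 := pos_of_connected hBc 2 (fun b hb h => by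
    have := (hrel b hb).2.1; rw [h, zero_mul] at this; exact zero_ne_one this) b hb
  have p4 := pos_of_connected hBc 4 (fun b hb h => by
    have := (hrel b hb).2.2; rw [h, zero_mul] at this; exact zero_ne_one this) b hb
  obtain ⟨h01, h23, h44⟩ := hrel b hb
  have h44' : (b : M5) 4 4 = 1 := by nlinarith
  refine ⟨![Real.log ((b : M5) 0 0), Real.log ((b : M5) 2 2)], ?_⟩
  apply Units.ext
  rw [hdiag b hb, coe_dd, D]
  congr 1
  ext i
  fin_cases i
  · simp [Real.exp_log p0]
  · simp [Real.exp_log p0]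
    exact (eq_inv_of_mul_eq_one_right h01).symm
  · simp [Real.exp_log p2]
  · simp [Real.exp_log p2]
    exact (eq_inv_of_mul_eq_one_right h23).symm
  · simp [h44']

lemma AA_max (B : Subgroup (GL (Fin 5) ℝ)) (hBG : B ≤ SO32)
    (hBc : IsConnected (B : Set (GL (Fin 5) ℝ))) (hBd : IsRDiagonalizable B) (hAB : AA ≤ B) :
    B = AA := by
  apply AA_max_of_comm B hBG hBc hAB
  obtain ⟨P, hP⟩ := hBd
  have haB : areg ∈ B := hAB ⟨_, rfl⟩
  intro b hb
  have h1 := hP b hb
  have h2 := hP areg haB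
  have h3 : P⁻¹ * b * P * (P⁻¹ * areg * P) = P⁻¹ * areg * P * (P⁻¹ * b * P) := by
    apply Units.ext
    exact diag_comm h1 h2
  have h4 : b * areg = areg * b := by
    have h5 : P * (P⁻¹ * b * P * (P⁻¹ * areg * P)) * P⁻¹ =
        P * (P⁻¹ * areg * P * (P⁻¹ * b * P)) * P⁻¹ := by rw [h3]
    have e1 : P * (P⁻¹ * b * P * (P⁻¹ * areg * P)) * P⁻¹ = b * areg := by group
    have e2 : P * (P⁻¹ * areg * P * (P⁻¹ * b * P)) * P⁻¹ = areg * b := by group
    rwa [e1, e2] at h5
  have := congrArg (fun g : GL (Fin 5) ℝ => (g : M5)) h4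
  simpa using this

/-- `A` is a Cartan subgroup -/
theorem AA_cartan : IsCartanSubgroup SO32 AA :=
  ⟨⟨AA_le, AA_connected, AA_diag⟩, AA_max⟩

/-- `A` is isomorphic to `ℝ²` -/
def AA_equiv : Multiplicative (Fin 2 → ℝ) ≃ₜ* AA where
  toFun x := ⟨dd x.toAdd, x.toAdd, rfl⟩
  invFun g := Multiplicative.ofAdd
    ![Real.log (((g : GL (Fin 5) ℝ) : M5) 0 0), Real.log (((g : GL (Fin 5) ℝ) : M5) 2 2)]
  left_inv x := by
    apply Multiplicative.toAdd.injective
    ext i
    fin_cases i <;> simp [coe_dd, D]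
  right_inv := by
    rintro ⟨_, x, rfl⟩
    apply Subtype.ext
    change dd _ = dd x
    congr 1
    ext i
    fin_cases i <;> simp [coe_dd, D]
  map_mul' x y := by
    apply Subtype.ext
    exact dd_add _ _
  continuous_toFun := by
    apply Continuous.subtype_mk
    exact dd_cont.comp continuous_toAdd
  continuous_invFun := by
    have hval : Continuous fun g : AA => ((g : GL (Fin 5) ℝ) : M5) :=
      Units.continuous_val.comp continuous_subtype_val
    have hne : ∀ g : AA, ((g : GL (Fin 5) ℝ) : M5) 0 0 ≠ 0 ∧ ((g : GL (Fin 5) ℝ) : M5) 2 2 ≠ 0 := by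
      rintro ⟨_, x, rfl⟩
      constructor <;> simp [coe_dd, D]
    apply continuous_ofAdd.comp
    apply continuous_pi
    intro i
    fin_cases i
    · exact (hval.matrix_elem 0 0).log (fun g => (hne g).1)
    · exact (hval.matrix_elem 2 2).log (fun g => (hne g).2)

lemma g0_mem : dd ![-Real.log (9/4), 0] ∈ Gam := by
  refine ⟨[0, 1], by simp, ?_⟩
  rw [coe_dd]
  simp only [wd_cons, wd_nil, Matrix.mul_one, refl01]
  have : Real.exp (-Real.log (9/4)) = 4/9 := by
    rw [Real.exp_neg, Real.exp_log (by norm_num)]; norm_num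
  simp [this]

lemma g1_mem : dd ![0, -Real.log (9/4)] ∈ Gam := by
  refine ⟨[2, 3], by simp, ?_⟩
  rw [coe_dd]
  simp only [wd_cons, wd_nil, Matrix.mul_one, refl23]
  have : Real.exp (-Real.log (9/4)) = 4/9 := by
    rw [Real.exp_neg, Real.exp_log (by norm_num)]; norm_num
  simp [this]

lemma dd_zpow (x : Fin 2 → ℝ) (n : ℤ) : dd ((n : ℝ) • x) = dd x ^ n := by
  have hn : ∀ n : ℕ, dd ((n : ℝ) • x) = dd x ^ n := by
    intro n
    induction n with
    | zero => simp [dd_zero]
    | succ n ih =>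
      rw [pow_succ, ← ih, ← dd_add]
      congr 1
      push_cast
      module
  obtain ⟨m, rfl | rfl⟩ := n.eq_nat_or_neg
  · simpa using hn m
  · rw [_root_.zpow_neg, zpow_natCast, ← hn, ← dd_neg]
    congr 1
    push_cast
    module

lemma lat_mem (n m : ℤ) : dd ![n * Real.log (9/4), m * Real.log (9/4)] ∈ Gam := by
  have h : dd ![n * Real.log (9/4), m * Real.log (9/4)] =
      dd ![-Real.log (9/4), 0] ^ (-n) * dd ![0, -Real.log (9/4)] ^ (-m) := by
    rw [← dd_zpow, ← dd_zpow, ← dd_add]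
    congr 1
    ext i
    fin_cases i <;> simp
  rw [h]
  exact Gam.mul_mem (Gam.zpow_mem g0_mem _) (Gam.zpow_mem g1_mem _)

/-- `A ∩ Γ` is cocompact in `A` -/
theorem cocompact : CompactSpace (AA ⧸ Gam.subgroupOf AA) := by
  set L := Real.log (9/4) with hL
  have hLpos : 0 < L := Real.log_pos (by norm_num)
  let K : Set (Fin 2 → ℝ) := Set.Icc 0 (fun _ => L)
  have hK : IsCompact K := isCompact_Icc
  let φ : (Fin 2 → ℝ) → AA ⧸ Gam.subgroupOf AA := fun x => QuotientGroup.mk ⟨dd x, x, rfl⟩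
  have hφ : Continuous φ := by
    apply QuotientGroup.continuous_mk.comp
    exact Continuous.subtype_mk dd_cont _
  have himg : φ '' K = Set.univ := by
    apply Set.eq_univ_of_forall
    intro q
    obtain ⟨⟨_, x, rfl⟩, rfl⟩ := QuotientGroup.mk_surjective q
    set n : Fin 2 → ℤ := fun i => ⌊x i / L⌋ with hn
    refine ⟨fun i => x i - n i * L, ?_, ?_⟩
    · constructor
      · intro i
        have := Int.floor_le (x i / L)
        rw [le_div_iff₀ hLpos] at this
        simp only [Pi.zero_apply, hn]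
        linarith
      · intro i
        have := Int.lt_floor_add_one (x i / L)
        rw [div_lt_iff₀ hLpos] at this
        simp only [hn]
        linarith
    · change QuotientGroup.mk _ = QuotientGroup.mk _
      rw [QuotientGroup.eq, Subgroup.mem_subgroupOf]
      change (dd _)⁻¹ * dd x ∈ Gam
      rw [← dd_neg, ← dd_add]
      have hlat := lat_mem (n 0) (n 1)
      rw [← hL] at hlat
      convert hlat using 2
      ext i
      fin_cases i <;> simp
  exact ⟨by rw [← himg]; exact hK.image hφ⟩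

end Pool.Agent.H56R2.CL
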