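import Mathlib
import Pool.Agent.H56R2.CL.Dense

/-!
The Lie algebra of `SO_0(3,2)`.
-/

set_option autoImplicit false

noncomputable section

open Matrix

namespace Pool.Agent.H56R2.CL

/-- the space of matrices that are skew for the form -/
def so32 : Submodule ℝ (Matrix (Fin 5) (Fin 5) ℝ) where
  carrier := {X | Xᵀ * S = - (S * X)}
  add_mem' := by
    intro a b ha hb
    simp only [Set.mem_ofPred_eq] at *
    rw [transpose_add, Matrix.add_mul, ha, hb, Matrix.mul_add]
    abel
  zero_mem' := by simp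
  smul_mem' := by
    intro c a ha
    simp only [Set.mem_ofPred_eq] at *
    rw [transpose_smul, Matrix.smul_mul, ha, Matrix.mul_smul, smul_neg]

lemma so32_lie {a b : M5} (ha : a ∈ so32) (hb : b ∈ so32) : a * b - b * a ∈ so32 := by
  have ha' : aᵀ * S = - (S * a) := ha
  have hb' : bᵀ * S = - (S * b) := hb
  change (a * b - b * a)ᵀ * S = - (S * (a * b - b * a))
  rw [transpose_sub, transpose_mul, transpose_mul, Matrix.sub_mul, Matrix.mul_assoc,
    Matrix.mul_assoc, ha', hb', Matrix.mul_neg, Matrix.mul_neg, ← Matrix.mul_assoc,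
    ← Matrix.mul_assoc, ha', hb', Matrix.mul_sub]
  simp only [Matrix.neg_mul, neg_neg, Matrix.mul_assoc]
  abel

lemma mem_so32 {X : M5} : X ∈ so32 ↔ Skew X := Iff.rfl

lemma skew_conj {X : M5} (h : Skew X) : Xᵀ = S * (-X) * S⁻¹ := by
  have hS : IsUnit S.det := by
    rw [isUnit_iff_ne_zero]
    intro h0
    have := congrArg Matrix.det S_mul_Si
    rw [det_mul, h0, det_one] at this
    simp at this
  have h' : Xᵀ * S = - (S * X) := h
  rw [Matrix.mul_neg, ← h', Matrix.mul_assoc, Matrix.mul_nonsing_inv _ hS, Matrix.mul_one]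

lemma S_unit : IsUnit S := by
  rw [isUnit_iff_exists]
  exact ⟨Si, S_mul_Si, Si_mul_S⟩

lemma exp_isom {X : M5} (h : Skew X) :
    (NormedSpace.exp X)ᵀ * S * NormedSpace.exp X = S := by
  rw [← Matrix.exp_transpose, skew_conj h, Matrix.exp_conj _ _ S_unit, Matrix.mul_assoc,
    Matrix.mul_assoc, Matrix.exp_neg]
  have hu : IsUnit (NormedSpace.exp X).det :=
    (Matrix.isUnit_iff_isUnit_det _).mp (Matrix.isUnit_exp X)
  have hS : IsUnit S.det := (Matrix.isUnit_iff_isUnit_det _).mp S_unit
  rw [← Matrix.mul_assoc S⁻¹, Matrix.nonsing_inv_mul _ hS, Matrix.one_mul,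
    Matrix.mul_assoc, Matrix.nonsing_inv_mul _ hu, Matrix.mul_one]

open scoped Matrix.Norms.Operator in
set_option backward.isDefEq.respectTransparency false in
lemma exp_path_cont (X : M5) : Continuous fun t : ℝ => NormedSpace.exp (t • X) := by
  have h : Continuous fun t : ℝ => t • X := by fun_prop
  exact NormedSpace.exp_continuous.comp h

lemma exp_mem {X : M5} (h : Skew X) (t : ℝ) :
    ∃ g ∈ SO32, (g : M5) = NormedSpace.exp (t • X) := by
  have hs : ∀ t : ℝ, Skew (t • X) := by
    intro t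
    exact so32.smul_mem t h
  exact ⟨_, mem_SO32_of_path (fun t => NormedSpace.exp (t • X)) (exp_path_cont X) (by simp)
    (fun t => exp_isom (hs t)) t, rfl⟩

lemma deriv_helper (f : ℝ → M5) (X : M5) (hf0 : f 0 = 1)
    (hent : ∀ i j, HasDerivAt (fun t => f t i j) (X i j) 0)
    (h : ∀ t, (f t)ᵀ * S * f t = S) : Xᵀ * S + S * X = 0 := by
  ext i j
  have h4 : ∀ k ∈ Finset.univ, HasDerivAt (fun t : ℝ => (∑ l, f t l i * S l k) * f t k j)
      ((∑ l, X l i * S l k) * f 0 k j + (∑ l, f 0 l i * S l k) * X k j) 0 := by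
    intro k _
    have h5 : HasDerivAt (fun t : ℝ => ∑ l, f t l i * S l k) (∑ l, X l i * S l k) 0 := by
      apply HasDerivAt.fun_sum
      intro l _
      exact (hent l i).mul_const _
    exact h5.mul (hent k j)
  have h7 := HasDerivAt.fun_sum h4
  have h8 : (fun t : ℝ => ∑ k, (∑ l, f t l i * S l k) * f t k j) = fun _ => S i j := by
    ext t
    have := congrFun (congrFun (h t) i) j
    rw [← this]
    simp only [Matrix.mul_apply, Matrix.transpose_apply]
  rw [h8] at h7
  have h9 := h7.unique (hasDerivAt_const (0 : ℝ) (S i j))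
  rw [Finset.sum_add_distrib, hf0] at h9
  have h10 : (Xᵀ * S + S * X) i j = ∑ k, (∑ l, X l i * S l k) * (1 : M5) k j +
      ∑ k, (∑ l, (1 : M5) l i * S l k) * X k j := by
    simp [Matrix.one_apply, Matrix.mul_apply]
  rw [h10, h9]
  rfl

open scoped Matrix.Norms.Operator in
set_option backward.isDefEq.respectTransparency false in
lemma exp_hasDeriv (X : M5) (i j : Fin 5) :
    HasDerivAt (fun t : ℝ => NormedSpace.exp (t • X) i j) (X i j) 0 := by
  have hd : HasDerivAt (fun t : ℝ => NormedSpace.exp (t • X)) X 0 := by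
    have := hasDerivAt_exp_smul_const' (𝕂 := ℝ) X 0
    simpa using this
  have h2 := hasDerivAt_pi.mp hd i
  exact hasDerivAt_pi.mp h2 j

lemma skew_of_exp {X : M5} (h : ∀ t : ℝ, ∃ g ∈ SO32, (g : M5) = NormedSpace.exp (t • X)) :
    Skew X := by
  have h1 : ∀ t : ℝ, (NormedSpace.exp (t • X))ᵀ * S * NormedSpace.exp (t • X) = S := by
    intro t
    obtain ⟨g, hg, he⟩ := h t
    rw [← he]
    exact SO32_le_Oq hg
  change Xᵀ * S = - (S * X)
  rw [eq_neg_iff_add_eq_zero]
  exact deriv_helper (fun t => NormedSpace.exp (t • X)) X (by simp) (exp_hasDeriv X) h1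

/-- `so32` is the Lie algebra of `SO32` -/
theorem isLie : IsLieAlgebraOf so32 SO32 := by
  intro X
  exact ⟨fun h t => exp_mem h t, fun h => skew_of_exp h⟩

/-- derivative of `wedge_conj` -/
lemma wedge_lie {X : M5} (h : Skew X) (a b : Fin 5 → ℝ) :
    X * wedge a b - wedge a b * X = wedge (X *ᵥ a) b + wedge a (X *ᵥ b) := by
  have hb : ∀ x y : Fin 5 → ℝ, bil (X *ᵥ x) y = - bil x (X *ᵥ y) := by
    intro x y
    have h' : Xᵀ * S = - (S * X) := h
    rw [bil_eq, bil_eq, ← vecMul_transpose, ← dotProduct_mulVec, mulVec_mulVec, h', neg_mulVec,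
      dotProduct_neg, mulVec_mulVec]
  apply Matrix.ext_of_mulVec_single
  intro k
  rw [sub_mulVec, ← mulVec_mulVec, ← mulVec_mulVec, add_mulVec, wedge_mulVec, wedge_mulVec,
    wedge_mulVec, wedge_mulVec, mulVec_sub, mulVec_smul, mulVec_smul, hb, hb]
  module

lemma skew_bil {X : M5} (h : Skew X) (x y : Fin 5 → ℝ) : bil (X *ᵥ x) y = - bil x (X *ᵥ y) := by
  have h' : Xᵀ * S = - (S * X) := h
  rw [bil_eq, bil_eq, ← vecMul_transpose, ← dotProduct_mulVec, mulVec_mulVec, h', neg_mulVec,
    dotProduct_neg, mulVec_mulVec]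

lemma wedge_sub_left (x y z : Fin 5 → ℝ) : wedge (x - y) z = wedge x z - wedge y z := by
  have h := wedge_add_left (x - y) y z
  rw [sub_add_cancel] at h
  rw [h, add_sub_cancel_right]

lemma wedge_sub_right (x y z : Fin 5 → ℝ) : wedge x (y - z) = wedge x y - wedge x z := by
  have h := wedge_add_right x (y - z) z
  rw [sub_add_cancel] at h
  rw [h, add_sub_cancel_right]

/-- ideals of the Lie algebra -/
def IsIdl (I : Submodule ℝ M5) : Prop :=
  I ≤ so32 ∧ ∀ X ∈ so32, ∀ Y ∈ I, X * Y - Y * X ∈ I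

lemma IsIdl.lie {I : Submodule ℝ M5} (hI : IsIdl I) {X Y : M5} (hX : Skew X) (hY : Y ∈ I) :
    X * Y - Y * X ∈ I := hI.2 X hX Y hY

/-- bracket of wedges -/
lemma IsIdl.ww {I : Submodule ℝ M5} (hI : IsIdl I) {a b : Fin 5 → ℝ} (c d : Fin 5 → ℝ)
    (h : wedge a b ∈ I) :
    wedge (bil a d • c - bil a c • d) b + wedge a (bil b d • c - bil b c • d) ∈ I := by
  have := hI.lie (wedge_skew c d) h
  rw [wedge_lie (wedge_skew c d), wedge_mulVec, wedge_mulVec] at this
  exact this

/-- an isotropic plane detects the elements of the ideal -/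
lemma detect {I : Submodule ℝ M5} (hI : IsIdl I) {X : M5} (hX : X ∈ I) {a b : Fin 5 → ℝ}
    (haa : bil a a = 0) (hbb : bil b b = 0) (hab : bil a b = 0) (hne : bil (X *ᵥ a) b ≠ 0) :
    wedge a b ∈ I := by
  have hsk : Skew X := hI.1 hX
  have h1 := hI.lie (wedge_skew a b) (hI.lie (wedge_skew a b) hX)
  have h2 : wedge a b * (wedge a b * X - X * wedge a b) -
      (wedge a b * X - X * wedge a b) * wedge a b =
      (-2 * bil (X *ᵥ a) b) • wedge a b := by
    have e1 : wedge a b * X - X * wedge a b = - (wedge (X *ᵥ a) b + wedge a (X *ᵥ b)) := by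
      rw [← wedge_lie hsk]; abel
    have e2 : wedge a b * (wedge (X *ᵥ a) b + wedge a (X *ᵥ b)) -
      (wedge (X *ᵥ a) b + wedge a (X *ᵥ b)) * wedge a b =
        (wedge (wedge a b *ᵥ (X *ᵥ a)) b + wedge (X *ᵥ a) (wedge a b *ᵥ b)) +
        (wedge (wedge a b *ᵥ a) (X *ᵥ b) + wedge a (wedge a b *ᵥ (X *ᵥ b))) := by
      rw [← wedge_lie (wedge_skew a b), ← wedge_lie (wedge_skew a b)]
      simp only [Matrix.mul_add, Matrix.add_mul]
      abel
    have e3 : bil (X *ᵥ a) a = 0 := by
      have := skew_bil hsk a a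
      rw [bil_symm a] at this
      linarith
    have e4 : bil (X *ᵥ b) b = 0 := by
      have := skew_bil hsk b b
      rw [bil_symm b] at this
      linarith
    have e5 : bil (X *ᵥ b) a = - bil (X *ᵥ a) b := by
      rw [skew_bil hsk, bil_symm]
    rw [e1, Matrix.mul_neg, Matrix.neg_mul, ← neg_sub', e2]
    simp only [wedge_mulVec, haa, hbb, hab, bil_symm b a, e3, e4, e5, zero_smul, sub_zero, zero_sub,
      neg_smul, neg_neg, neg_zero]
    simp only [wedge_smul_left, wedge_smul_right]
    have z1 : wedge (X *ᵥ a) 0 = 0 := by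
      have := wedge_smul_right 0 (X *ᵥ a) 0
      simpa using this
    have z2 : wedge 0 (X *ᵥ b) = 0 := by
      have := wedge_smul_left 0 0 (X *ᵥ b)
      simpa using this
    rw [z1, z2]
    module
  rw [h2] at h1
  have h3 := I.smul_mem (-2 * bil (X *ᵥ a) b)⁻¹ h1
  rw [smul_smul, inv_mul_cancel₀ (by simpa using hne), one_smul] at h3
  exact h3

lemma mem_swap {I : Submodule ℝ M5} {a b : Fin 5 → ℝ} (h : wedge a b ∈ I) :
    wedge b a ∈ I := by
  rw [wedge_swap b a]
  exact I.neg_mem h

/-- one totally isotropic plane generates everything -/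
lemma generate {I : Submodule ℝ M5} (hI : IsIdl I) {a b a' b' e : Fin 5 → ℝ}
    (haa' : bil a a' = 1) (hbb' : bil b b' = 1) (hab' : bil a b' = 0) (hba' : bil b a' = 0)
    (hee : bil e e = 2) (hae : bil a e = 0) (hbe : bil b e = 0)
    (h : wedge a b ∈ I) (x y : Fin 5 → ℝ) : wedge x y ∈ I := by
  have heb : wedge e b ∈ I := by
    have := hI.ww e a' h
    rw [haa', hae, hba', hbe] at this
    have z : wedge a ((0 : ℝ) • e - (0 : ℝ) • a') = 0 := by
      have := wedge_smul_right 0 a 0
      simpa using this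
    rw [z] at this
    simpa using this
  have hea : wedge e a ∈ I := by
    have := hI.ww e b' h
    rw [hab', hae, hbb', hbe] at this
    have z : wedge ((0 : ℝ) • e - (0 : ℝ) • b') b = 0 := by
      have := wedge_smul_left 0 0 b
      simpa using this
    rw [z] at this
    have h2 : wedge a e ∈ I := by simpa using this
    exact mem_swap h2
  have hxb : ∀ x : Fin 5 → ℝ, wedge x b ∈ I := by
    intro x
    have h1 := hI.ww x e heb
    rw [hee, hbe] at h1
    have h2 : wedge ((2 : ℝ) • x - bil e x • e) b + wedge e ((0 : ℝ) • x - bil b x • e) =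
        (2 : ℝ) • wedge x b - bil e x • wedge e b := by
      rw [zero_smul, zero_sub, ← neg_smul, wedge_smul_right, wedge_self, sub_eq_add_neg,
        wedge_add_left, wedge_smul_left, ← neg_smul, wedge_smul_left]
      module
    rw [h2] at h1
    have h3 := I.smul_mem (1/2 : ℝ) (I.add_mem h1 (I.smul_mem (bil e x) heb))
    convert h3 using 1
    module
  have hxa : ∀ x : Fin 5 → ℝ, wedge x a ∈ I := by
    intro x
    have h1 := hI.ww x e hea
    rw [hee, hae] at h1
    have h2 : wedge ((2 : ℝ) • x - bil e x • e) a + wedge e ((0 : ℝ) • x - bil a x • e) =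
        (2 : ℝ) • wedge x a - bil e x • wedge e a := by
      rw [zero_smul, zero_sub, ← neg_smul, wedge_smul_right, wedge_self, sub_eq_add_neg,
        wedge_add_left, wedge_smul_left, ← neg_smul, wedge_smul_left]
      module
    rw [h2] at h1
    have h3 := I.smul_mem (1/2 : ℝ) (I.add_mem h1 (I.smul_mem (bil e x) hea))
    convert h3 using 1
    module
  -- for `y` orthogonal to `b`
  have key : ∀ x y : Fin 5 → ℝ, wedge x y - bil b y • wedge x b' ∈ I := by
    intro x y
    have h1 := hI.ww y b' (hxb x)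
    rw [hbb'] at h1
    have h2 := I.sub_mem h1 (hxb (bil x b' • y - bil x y • b'))
    rw [add_sub_cancel_left] at h2
    convert h2 using 1
    rw [one_smul, wedge_sub_right, wedge_smul_right]
  have hperp : ∀ x y : Fin 5 → ℝ, bil b y = 0 → wedge x y ∈ I := by
    intro x y hy
    have := key x y
    rwa [hy, zero_smul, sub_zero] at this
  have hb'b' : wedge x b' - bil b x • wedge b' b' ∈ I := by
    have h1 : wedge b' (x - bil b x • b') ∈ I := by
      apply hperp
      rw [bil_symm, bil_sub_left, bil_smul_left, bil_symm b' b, hbb', bil_symm x b]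
      ring
    have h2 := mem_swap h1
    convert h2 using 1
    rw [wedge_sub_left, wedge_smul_left]
  rw [wedge_self, smul_zero, sub_zero] at hb'b'
  have := I.add_mem (key x y) (I.smul_mem (bil b y) hb'b')
  convert this using 1
  module

end Pool.Agent.H56R2.CL
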