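import Mathlib
import Pool.Agent.H56R2.CL.Lie
import Pool.Agent.H56R2.CL.Cartan

/-!
The diagonal subgroup is a Cartan subgroup also in the adjoint sense.
-/

set_option autoImplicit false

noncomputable section

open Matrix

namespace Pool.Agent.H56R2.CL

/-- common eigenvectors of `Ad A` -/
def eigs : Set so32 :=
  {X : so32 | ∀ a : SO32, (a : GL (Fin 5) ℝ) ∈ AA → ∃ c : ℝ, Ad isLie a X = c • X}

/-- membership in the span, for matrices -/
def InS (X : M5) : Prop := ∃ h : X ∈ so32, (⟨X, h⟩ : so32) ∈ Submodule.span ℝ eigs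

lemma InS.add {X Y : M5} (hX : InS X) (hY : InS Y) : InS (X + Y) := by
  obtain ⟨h1, h2⟩ := hX
  obtain ⟨h3, h4⟩ := hY
  exact ⟨so32.add_mem h1 h3, Submodule.add_mem _ h2 h4⟩

lemma InS.smul {X : M5} (c : ℝ) (hX : InS X) : InS (c • X) := by
  obtain ⟨h1, h2⟩ := hX
  exact ⟨so32.smul_mem c h1, Submodule.smul_mem _ c h2⟩

/-- common eigenvectors of `A` in `ℝ⁵` -/
def Ev (x : Fin 5 → ℝ) : Prop := ∀ s : Fin 2 → ℝ, ∃ c : ℝ, (dd s : M5) *ᵥ x = c • x

lemma Ev.wedge {x y : Fin 5 → ℝ} (hx : Ev x) (hy : Ev y) : InS (wedge x y) := by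
  refine ⟨wedge_skew x y, Submodule.subset_span ?_⟩
  rintro ⟨a, ha⟩ hA
  obtain ⟨s, rfl⟩ := hA
  obtain ⟨c, hc⟩ := hx s
  obtain ⟨d, hd⟩ := hy s
  refine ⟨d * c, ?_⟩
  apply Subtype.ext
  change (dd s : M5) * CL.wedge x y * (((dd s)⁻¹ : GL (Fin 5) ℝ) : M5) = (d * c) • CL.wedge x y
  rw [wedge_conj (g := (dd s : M5)) (h := (((dd s)⁻¹ : GL (Fin 5) ℝ) : M5)), hc, hd,
    wedge_smul_left, wedge_smul_right, smul_smul, mul_comm]
  intro z y
  have h1 := isoM_bil (M := (dd s : M5)) (SO32_le_Oq (dd_mem s))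
    ((((dd s)⁻¹ : GL (Fin 5) ℝ) : M5) *ᵥ z) y
  rw [mulVec_mulVec, ← GeneralLinearGroup.coe_mul, mul_inv_cancel] at h1
  rw [← h1]
  simp

lemma ev_b0 : Ev b0 := fun s => ⟨Real.exp (s 0), by
  rw [coe_dd, D_mulVec]; ext i; fin_cases i <;> simp [b0]⟩
lemma ev_b1 : Ev b1 := fun s => ⟨(Real.exp (s 0))⁻¹, by
  rw [coe_dd, D_mulVec]; ext i; fin_cases i <;> simp [b1]⟩
lemma ev_b2 : Ev b2 := fun s => ⟨Real.exp (s 1), by
  rw [coe_dd, D_mulVec]; ext i; fin_cases i <;> simp [b2]⟩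
lemma ev_b3 : Ev b3 := fun s => ⟨(Real.exp (s 1))⁻¹, by
  rw [coe_dd, D_mulVec]; ext i; fin_cases i <;> simp [b3]⟩
lemma ev_e4 : Ev e4 := fun s => ⟨1, by
  rw [coe_dd, D_mulVec]; ext i; fin_cases i <;> simp [e4]⟩

lemma vec_expand (z : Fin 5 → ℝ) :
    z = z 0 • b0 + z 1 • b1 + z 2 • b2 + z 3 • b3 + z 4 • e4 := by
  ext i; fin_cases i <;> simp [b0, b1, b2, b3, e4]

lemma inS_right {x : Fin 5 → ℝ} (hx : Ev x) (y : Fin 5 → ℝ) : InS (wedge x y) := by
  rw [vec_expand y]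
  simp only [wedge_add_right, wedge_smul_right]
  exact (((((hx.wedge ev_b0).smul _).add ((hx.wedge ev_b1).smul _)).add
    ((hx.wedge ev_b2).smul _)).add ((hx.wedge ev_b3).smul _)).add ((hx.wedge ev_e4).smul _)

lemma inS_wedge (x y : Fin 5 → ℝ) : InS (wedge x y) := by
  rw [vec_expand x]
  simp only [wedge_add_left, wedge_smul_left]
  exact (((((inS_right ev_b0 y).smul _).add ((inS_right ev_b1 y).smul _)).add
    ((inS_right ev_b2 y).smul _)).add ((inS_right ev_b3 y).smul _)).add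
    ((inS_right ev_e4 y).smul _)

lemma AA_ad_diag (hexp : ∀ Y : M5, Skew Y → Y = (1/2 : ℝ) • (wedge (Y *ᵥ b0) b1 +
    wedge (Y *ᵥ b1) b0 + wedge (Y *ᵥ b2) b3 + wedge (Y *ᵥ b3) b2 +
    (1/2 : ℝ) • wedge (Y *ᵥ e4) e4)) : IsAdDiagonalizable isLie AA := by
  change Submodule.span ℝ eigs = ⊤
  rw [eq_top_iff]
  intro y _
  have hy : InS y.1 := by
    rw [hexp y.1 y.2]
    exact ((((inS_wedge _ _).add (inS_wedge _ _)).add (inS_wedge _ _)).add (inS_wedge _ _) |>.add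
      ((inS_wedge _ _).smul _)).smul _
  obtain ⟨h1, h2⟩ := hy
  exact h2

lemma SO32_det {g : GL (Fin 5) ℝ} (hg : g ∈ SO32) : 0 < (g : M5).det := by
  by_contra hneg
  have hc : Continuous fun g : GL (Fin 5) ℝ => (g : M5).det :=
    Continuous.matrix_det Units.continuous_val
  have h1 := SO32_connected.isPreconnected.intermediate_value hg SO32.one_mem hc.continuousOn
  have h2 : (0 : ℝ) ∈ Set.Icc ((g : M5).det) (((1 : GL (Fin 5) ℝ) : M5).det) := by
    constructor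
    · exact not_lt.mp hneg
    · simp
  obtain ⟨c, hc1, hc2⟩ := h1 h2
  have h3 := isoM_det (M := (c : M5)) (SO32_le_Oq hc1)
  change (c : M5).det = 0 at hc2
  rw [hc2] at h3
  simp at h3

/-- a regular element of the Lie algebra -/
def Hreg : M5 := Matrix.diagonal ![1, -1, 2, -2, 0]

lemma Hreg_skew : Skew Hreg := by
  unfold Skew Hreg
  rw [diagonal_transpose]
  ext i j
  rw [diagonal_mul, Matrix.neg_apply, mul_diagonal]
  fin_cases i <;> fin_cases j <;> simp [S]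

lemma wedge40 : wedge e4 b0 4 1 = 1 ∧ wedge e4 b0 0 4 = -2 ∧ wedge e4 b0 4 4 = 0 := by
  refine ⟨?_, ?_, ?_⟩ <;>
  simp [wedge, vecMulVec, e4, b0, S, mulVec, dotProduct, Fin.sum_univ_five]

lemma wedge42 : wedge e4 b2 4 3 = 1 ∧ wedge e4 b2 2 4 = -2 := by
  refine ⟨?_, ?_⟩ <;>
  simp [wedge, vecMulVec, e4, b2, S, mulVec, dotProduct, Fin.sum_univ_five]

/-- an element of `SO32` that centralizes the Lie algebra is trivial -/
lemma center_trivial {c : GL (Fin 5) ℝ} (hc : c ∈ SO32)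
    (h : ∀ X : M5, Skew X → (c : M5) * X = X * (c : M5)) : c = 1 := by
  have hdiag : (c : M5) = Matrix.diagonal fun i => (c : M5) i i := by
    ext i j
    by_cases hij : i = j
    · subst hij; simp
    · rw [diagonal_apply_ne _ hij]
      have h1 := congrFun (congrFun (h Hreg Hreg_skew) i) j
      rw [Hreg, mul_diagonal, diagonal_mul] at h1
      have h2 : (![1, -1, 2, -2, 0] : Fin 5 → ℝ) j - (![1, -1, 2, -2, 0] : Fin 5 → ℝ) i ≠ 0 := by
        fin_cases i <;> fin_cases j <;> first | exact absurd rfl hij | (simp; done) | (simp; norm_num)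
      have h3 : ((![1, -1, 2, -2, 0] : Fin 5 → ℝ) j - (![1, -1, 2, -2, 0] : Fin 5 → ℝ) i) *
          (c : M5) i j = 0 := by linarith
      exact (mul_eq_zero.mp h3).resolve_left h2
  have e0 := h (wedge e4 b0) (wedge_skew _ _)
  have e2 := h (wedge e4 b2) (wedge_skew _ _)
  rw [hdiag] at e0 e2
  have e041 := congrFun (congrFun e0 4) 1
  have e004 := congrFun (congrFun e0 0) 4
  have e243 := congrFun (congrFun e2 4) 3
  have e224 := congrFun (congrFun e2 2) 4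
  rw [mul_diagonal, diagonal_mul] at e041 e004 e243 e224
  rw [wedge40.1] at e041
  rw [wedge40.2.1] at e004
  rw [wedge42.1] at e243
  rw [wedge42.2] at e224
  have hdet := SO32_det hc
  have h44 := SO32_le_Oq hc
  have h1 : (c : M5)ᵀ * S * (c : M5) = S := h44
  rw [hdiag, diagonal_transpose] at h1
  have h1' := congrFun (congrFun h1 4) 4
  rw [mul_diagonal, diagonal_mul] at h1'
  simp [S] at h1'
  rw [hdiag, det_diagonal, Fin.prod_univ_five] at hdet
  have i0 : (c : M5) 0 0 = (c : M5) 4 4 := by linarith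
  have i1 : (c : M5) 1 1 = (c : M5) 4 4 := by linarith
  have i2 : (c : M5) 2 2 = (c : M5) 4 4 := by linarith
  have i3 : (c : M5) 3 3 = (c : M5) 4 4 := by linarith
  rw [i0, i1, i2, i3] at hdet
  have hsq : (c : M5) 4 4 * (c : M5) 4 4 = 1 := by linarith
  have hpos : 0 < (c : M5) 4 4 := by
    have : (c : M5) 4 4 * (c : M5) 4 4 * (c : M5) 4 4 * (c : M5) 4 4 * (c : M5) 4 4 =
        (c : M5) 4 4 := by
      rw [hsq, one_mul, hsq, one_mul]
    rwa [this] at hdet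
  have h441 : (c : M5) 4 4 = 1 := by nlinarith
  apply Units.ext
  rw [hdiag, Units.val_one, ← Matrix.diagonal_one]
  congr 1
  ext i
  fin_cases i
  · simp [i0, h441]
  · simp [i1, h441]
  · simp [i2, h441]
  · simp [i3, h441]
  · simp [h441]

lemma AA_ad_max (B : Subgroup (GL (Fin 5) ℝ)) (hBG : B ≤ SO32)
    (hBc : IsConnected (B : Set (GL (Fin 5) ℝ))) (hBd : IsAdDiagonalizable isLie B)
    (hAB : AA ≤ B) : B = AA := by
  apply AA_max_of_comm B hBG hBc hAB
  have haB : areg ∈ B := hAB ⟨_, rfl⟩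
  intro b hb
  set a' : SO32 := ⟨areg, hBG haB⟩ with ha'
  set b' : SO32 := ⟨b, hBG hb⟩ with hb'
  have hcomm : Ad isLie a' * Ad isLie b' = Ad isLie b' * Ad isLie a' := by
    apply LinearMap.ext_on hBd
    intro X hX
    obtain ⟨c, hc⟩ := hX a' haB
    obtain ⟨d, hd⟩ := hX b' hb
    rw [Module.End.mul_apply, Module.End.mul_apply, hc, hd, map_smul, map_smul, hc, hd, smul_comm]
  have h1 : ∀ X : M5, Skew X → (areg * b : GL (Fin 5) ℝ) * X * (((areg * b)⁻¹ : GL (Fin 5) ℝ) : M5)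
      = (b * areg : GL (Fin 5) ℝ) * X * (((b * areg)⁻¹ : GL (Fin 5) ℝ) : M5) := by
    intro X hX
    have h2 := congrArg Subtype.val (LinearMap.congr_fun hcomm ⟨X, hX⟩)
    have h3 : (areg : M5) * ((b : M5) * X * ((b⁻¹ : GL (Fin 5) ℝ) : M5)) *
        ((areg⁻¹ : GL (Fin 5) ℝ) : M5) = (b : M5) * ((areg : M5) * X *
        ((areg⁻¹ : GL (Fin 5) ℝ) : M5)) * ((b⁻¹ : GL (Fin 5) ℝ) : M5) := h2
    rw [_root_.mul_inv_rev, _root_.mul_inv_rev]
    simp only [GeneralLinearGroup.coe_mul]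
    simp only [Matrix.mul_assoc] at h3 ⊢
    exact h3
  have h4 : (b * areg)⁻¹ * (areg * b) = 1 := by
    apply center_trivial
    · exact SO32.mul_mem (SO32.inv_mem (SO32.mul_mem (hBG hb) (hBG haB)))
        (SO32.mul_mem (hBG haB) (hBG hb))
    · intro X hX
      have h5 := h1 X hX
      set u := b * areg
      set v := areg * b
      have hu : ((u⁻¹ : GL (Fin 5) ℝ) : M5) * (u : M5) = 1 := by
        rw [← GeneralLinearGroup.coe_mul, inv_mul_cancel]; rfl
      have hv : ((v⁻¹ : GL (Fin 5) ℝ) : M5) * (v : M5) = 1 := by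
        rw [← GeneralLinearGroup.coe_mul, inv_mul_cancel]; rfl
      rw [GeneralLinearGroup.coe_mul]
      calc ((u⁻¹ : GL (Fin 5) ℝ) : M5) * (v : M5) * X
          = ((u⁻¹ : GL (Fin 5) ℝ) : M5) * ((v : M5) * X * ((v⁻¹ : GL (Fin 5) ℝ) : M5)) *
            (v : M5) := by
            simp only [Matrix.mul_assoc]
            rw [hv, Matrix.mul_one]
        _ = ((u⁻¹ : GL (Fin 5) ℝ) : M5) * ((u : M5) * X * ((u⁻¹ : GL (Fin 5) ℝ) : M5)) *
            (v : M5) := by rw [h5]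
        _ = (((u⁻¹ : GL (Fin 5) ℝ) : M5) * (u : M5)) * X * (((u⁻¹ : GL (Fin 5) ℝ) : M5) *
            (v : M5)) := by simp only [Matrix.mul_assoc]
        _ = X * (((u⁻¹ : GL (Fin 5) ℝ) : M5) * (v : M5)) := by rw [hu, Matrix.one_mul]
  have h6 : b * areg = areg * b := inv_mul_eq_one.mp h4
  have := congrArg (fun g : GL (Fin 5) ℝ => (g : M5)) h6
  simpa using this

end Pool.Agent.H56R2.CL
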