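import Mathlib
import Pool.Agent.H56R2.CL.Lie

/-!
`Ad Γ` is Zariski dense in `Ad G`.
-/

set_option autoImplicit false

noncomputable section

open Matrix

namespace Pool.Agent.H56R2.CL

/-- a projection onto the Lie algebra -/
lemma exists_proj : ∃ p : M5 →ₗ[ℝ] so32, ∀ X : so32, p X.1 = X := by
  obtain ⟨p, hp⟩ := so32.subtype.exists_leftInverse_of_injective
    (by rw [Submodule.ker_subtype])
  exact ⟨p, fun X => LinearMap.congr_fun hp X⟩

/-- a bilinear extension of the adjoint representation -/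
def TT (p : M5 →ₗ[ℝ] so32) (M N : M5) : Module.End ℝ so32 where
  toFun X := p (M * X.1 * (Si * Nᵀ * S))
  map_add' X Y := by
    rw [← map_add]
    congr 1
    change M * (X.1 + Y.1) * (Si * Nᵀ * S) = _
    rw [Matrix.mul_add, Matrix.add_mul]
  map_smul' c X := by
    rw [RingHom.id_apply, ← map_smul]
    congr 1
    change M * (c • X.1) * (Si * Nᵀ * S) = _
    rw [Matrix.mul_smul, Matrix.smul_mul]

lemma TT_apply (p : M5 →ₗ[ℝ] so32) (M N : M5) (X : so32) :
    TT p M N X = p (M * X.1 * (Si * Nᵀ * S)) := rfl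

/-- bilinear form attached to a linear functional -/
def BB (p : M5 →ₗ[ℝ] so32) (L : Module.End ℝ so32 →ₗ[ℝ] ℝ) : M5 →ₗ[ℝ] M5 →ₗ[ℝ] ℝ :=
  LinearMap.mk₂ ℝ (fun M N => L (TT p M N))
    (by
      intro M M' N
      rw [← map_add]
      congr 1
      ext1 X
      rw [LinearMap.add_apply, TT_apply, TT_apply, TT_apply, Matrix.add_mul, Matrix.add_mul,
        map_add])
    (by
      intro c M N
      rw [smul_eq_mul, ← smul_eq_mul, ← map_smul]
      congr 1
      ext1 X
      rw [LinearMap.smul_apply, TT_apply, TT_apply, Matrix.smul_mul, Matrix.smul_mul, map_smul])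
    (by
      intro M N N'
      rw [← map_add]
      congr 1
      ext1 X
      rw [LinearMap.add_apply, TT_apply, TT_apply, TT_apply, transpose_add, Matrix.mul_add,
        Matrix.add_mul, Matrix.mul_add, map_add])
    (by
      intro c M N
      rw [smul_eq_mul, ← smul_eq_mul, ← map_smul]
      congr 1
      ext1 X
      rw [LinearMap.smul_apply, TT_apply, TT_apply, transpose_smul, Matrix.mul_smul,
        Matrix.smul_mul, Matrix.mul_smul, map_smul])

lemma quad_mem (B : M5 →ₗ[ℝ] M5 →ₗ[ℝ] ℝ) : (fun M : M5 => B M M) ∈ PF := by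
  have h : (fun M : M5 => B M M) = fun M => ∑ i, ∑ j, ∑ k, ∑ l,
      M i j * (M k l * B (single i j 1) (single k l 1)) := by
    ext M
    have hM : M = ∑ i, ∑ j, M i j • single i j (1 : ℝ) := by
      conv_lhs => rw [matrix_eq_sum_single M]
      simp [smul_single]
    have h1 : ∀ N : M5, B M N = ∑ i, ∑ j, M i j * B (single i j 1) N := by
      intro N
      conv_lhs => rw [hM]
      simp only [map_sum, map_smul, LinearMap.sum_apply, LinearMap.smul_apply, smul_eq_mul]
    have h2 : ∀ N : M5, B N M = ∑ i, ∑ j, M i j * B N (single i j 1) := by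
      intro N
      conv_lhs => rw [hM]
      simp only [map_sum, map_smul, smul_eq_mul]
    rw [h1]
    simp only [h2, Finset.mul_sum]
  rw [h]
  refine sum_mem' _ _ fun i _ => sum_mem' _ _ fun j _ => sum_mem' _ _ fun k _ =>
    sum_mem' _ _ fun l _ => ?_
  exact PF.mul_mem (entry_mem i j) (PF.mul_mem (entry_mem k l) (const_mem _))

lemma pull_mem (p : M5 →ₗ[ℝ] so32) {f : Module.End ℝ so32 → ℝ}
    (hf : f ∈ polyFun (Module.End ℝ so32)) : (fun M : M5 => f (TT p M M)) ∈ PF := by
  induction hf using Algebra.adjoin_induction with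
  | mem x hx =>
    obtain ⟨L, rfl⟩ := hx
    exact quad_mem (BB p L)
  | algebraMap r => exact PF.algebraMap_mem r
  | add x y _ _ hx hy => exact PF.add_mem hx hy
  | mul x y _ _ hx hy => exact PF.mul_mem hx hy

/-- `Ad Γ` is Zariski dense in `Ad G` -/
theorem zariski_dense : ZariskiDense isLie Gam := by
  intro f hf h0 g
  obtain ⟨p, hp⟩ := exists_proj
  have hT : ∀ g : SO32, Ad isLie g = TT p ((g : GL (Fin 5) ℝ) : M5) ((g : GL (Fin 5) ℝ) : M5) := by
    intro g
    ext1 X
    rw [TT_apply, ← inv_val (SO32_le_Oq g.2)]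
    exact (hp (Ad isLie g X)).symm
  rw [hT]
  apply SO32_mem_Z g.2 _ (pull_mem p hf)
  intro γ hγ
  have := h0 ⟨γ, Gam_le hγ⟩ hγ
  rw [hT] at this
  exact this

end Pool.Agent.H56R2.CL
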