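import Mathlib
import Pool.Agent.H56R2.CL.Lie

/-!
The Lie algebra of `SO_0(3,2)` is simple.
-/

set_option autoImplicit false

noncomputable section

open Matrix

namespace Pool.Agent.H56R2.CL

lemma skew_entry {X : M5} (h : Skew X) (i j : Fin 5) : (Xᵀ * S) i j = - (S * X) i j := by
  have h' : Xᵀ * S = - (S * X) := h
  rw [h']; rfl

/-- the ten planes -/
lemma bil_mv_eq (X : M5) (a b : Fin 5 → ℝ) : bil (X *ᵥ a) b =
    (∑ j, X 0 j * a j) * b 1 + (∑ j, X 1 j * a j) * b 0 + (∑ j, X 2 j * a j) * b 3 +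
      (∑ j, X 3 j * a j) * b 2 + 2 * ((∑ j, X 4 j * a j) * b 4) := rfl

lemma eq_zero_of_planes {X : M5} (h : Skew X)
    (h1 : bil (X *ᵥ ![1, 0, 0, 0, 0]) ![0, 0, 1, 0, 0] = 0)
    (h2 : bil (X *ᵥ ![1, 0, 0, 0, 0]) ![0, 0, 0, 1, 0] = 0)
    (h3 : bil (X *ᵥ ![0, 1, 0, 0, 0]) ![0, 0, 1, 0, 0] = 0)
    (h4 : bil (X *ᵥ ![0, 1, 0, 0, 0]) ![0, 0, 0, 1, 0] = 0)
    (h5 : bil (X *ᵥ ![1, -1, 0, 0, 1]) ![0, 0, 1, 0, 0] = 0)
    (h6 : bil (X *ᵥ ![1, -1, 0, 0, 1]) ![0, 0, 0, 1, 0] = 0)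
    (h7 : bil (X *ᵥ ![0, 0, 1, -1, 1]) ![1, 0, 0, 0, 0] = 0)
    (h8 : bil (X *ᵥ ![0, 0, 1, -1, 1]) ![0, 1, 0, 0, 0] = 0)
    (h9 : bil (X *ᵥ ![1, 0, 1, 0, 0]) ![0, 1, 0, -1, 0] = 0)
    (h10 : bil (X *ᵥ ![1, 0, 0, 1, 0]) ![0, 1, -1, 0, 0] = 0) : X = 0 := by
  have s := skew_entry h
  have s00 := s 0 0
  have s11 := s 1 1
  have s22 := s 2 2
  have s33 := s 3 3
  have s44 := s 4 4
  have s01 := s 0 1
  have s02 := s 0 2
  have s03 := s 0 3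
  have s04 := s 0 4
  have s12 := s 1 2
  have s13 := s 1 3
  have s14 := s 1 4
  have s23 := s 2 3
  have s24 := s 2 4
  have s34 := s 3 4
  simp [Matrix.mul_apply, Fin.sum_univ_five, S] at s00 s11 s22 s33 s44 s01 s02 s03 s04 s12 s13 s14 s23 s24 s34
  simp [bil_mv_eq, Fin.sum_univ_five] at h1 h2 h3 h4 h5 h6 h7 h8 h9 h10
  ext i j
  fin_cases i <;> fin_cases j <;> simp <;> linarith

lemma wedge_expand {Y : M5} (h : Skew Y) : Y = (1/2 : ℝ) • (wedge (Y *ᵥ b0) b1 +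
    wedge (Y *ᵥ b1) b0 + wedge (Y *ᵥ b2) b3 + wedge (Y *ᵥ b3) b2 +
    (1/2 : ℝ) • wedge (Y *ᵥ e4) e4) := by
  apply Matrix.ext_of_mulVec_single
  intro k
  set z : Fin 5 → ℝ := Pi.single k 1
  have hz : z = z 0 • b0 + z 1 • b1 + z 2 • b2 + z 3 • b3 + z 4 • e4 := by
    ext i; fin_cases i <;> simp [b0, b1, b2, b3, e4]
  have hYz : Y *ᵥ z = z 0 • (Y *ᵥ b0) + z 1 • (Y *ᵥ b1) + z 2 • (Y *ᵥ b2) + z 3 • (Y *ᵥ b3) +
      z 4 • (Y *ᵥ e4) := by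
    conv_lhs => rw [hz]
    simp only [mulVec_add, mulVec_smul]
  have hw : Y *ᵥ z = (Y *ᵥ z) 0 • b0 + (Y *ᵥ z) 1 • b1 + (Y *ᵥ z) 2 • b2 + (Y *ᵥ z) 3 • b3 +
      (Y *ᵥ z) 4 • e4 := by
    generalize Y *ᵥ z = u
    ext i; fin_cases i <;> simp [b0, b1, b2, b3, e4]
  have hb : ∀ y : Fin 5 → ℝ, bil z (Y *ᵥ y) = - bil (Y *ᵥ z) y := by
    intro y
    rw [skew_bil h, neg_neg]
  simp only [smul_mulVec, add_mulVec, wedge_mulVec, hb, bil_b0, bil_b1, bil_b2, bil_b3, bil_e4]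
  have : Y *ᵥ z = (1/2 : ℝ) • ((z 0 • (Y *ᵥ b0) + z 1 • (Y *ᵥ b1) + z 2 • (Y *ᵥ b2) +
      z 3 • (Y *ᵥ b3) + z 4 • (Y *ᵥ e4)) + ((Y *ᵥ z) 0 • b0 + (Y *ᵥ z) 1 • b1 +
      (Y *ᵥ z) 2 • b2 + (Y *ᵥ z) 3 • b3 + (Y *ᵥ z) 4 • e4)) := by
    rw [← hYz, ← hw]
    module
  refine this.trans ?_
  module

/-- The Lie algebra `so(3,2)` is simple. -/
theorem so32_simple : IsSimpleLieAlgebra so32 := by
  refine ⟨fun X hX Y hY => so32_lie hX hY, ?_, ?_⟩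
  · refine ⟨wedge b0 b1, wedge_skew _ _, wedge b0 b2, wedge_skew _ _, ?_⟩
    intro h2
    have h3 := congrFun (congrArg (fun M : M5 => M *ᵥ b3) h2) 0
    rw [wedge_lie (wedge_skew _ _)] at h3
    simp [add_mulVec, wedge_mulVec, bil, b0, b1, b2, b3] at h3
  · intro I hle hcl
    have hI : IsIdl I := ⟨hle, hcl⟩
    rw [or_iff_not_imp_left]
    intro hne
    obtain ⟨X, hX, hX0⟩ := Submodule.exists_mem_ne_zero_of_ne_bot hne
    have hall : ∀ x y : Fin 5 → ℝ, wedge x y ∈ I := by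
      by_contra hcon
      apply hX0
      have key : ∀ a b a' b' e : Fin 5 → ℝ, bil a a = 0 → bil b b = 0 → bil a b = 0 →
          bil a a' = 1 → bil b b' = 1 → bil a b' = 0 → bil b a' = 0 → bil e e = 2 →
          bil a e = 0 → bil b e = 0 → bil (X *ᵥ a) b = 0 := by
        intro a b a' b' e haa hbb hab haa' hbb' hab' hba' hee hae hbe
        by_contra hne
        apply hcon
        intro x y
        exact generate hI haa' hbb' hab' hba' hee hae hbe (detect hI hX haa hbb hab hne) x y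
      apply eq_zero_of_planes (hle hX)
      · apply key _ _ ![0, 1, 0, 0, 0] ![0, 0, 0, 1, 0] ![0, 0, 0, 0, 1] <;> simp [bil]
      · apply key _ _ ![0, 1, 0, 0, 0] ![0, 0, 1, 0, 0] ![0, 0, 0, 0, 1] <;> simp [bil]
      · apply key _ _ ![1, 0, 0, 0, 0] ![0, 0, 0, 1, 0] ![0, 0, 0, 0, 1] <;> simp [bil]
      · apply key _ _ ![1, 0, 0, 0, 0] ![0, 0, 1, 0, 0] ![0, 0, 0, 0, 1] <;> simp [bil]
      · apply key _ _ ![0, 1, 0, 0, 0] ![0, 0, 0, 1, 0] ![2, 0, 0, 0, 1] <;> simp [bil] <;> norm_num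
      · apply key _ _ ![0, 1, 0, 0, 0] ![0, 0, 1, 0, 0] ![2, 0, 0, 0, 1] <;> simp [bil] <;> norm_num
      · apply key _ _ ![0, 0, 0, 1, 0] ![0, 1, 0, 0, 0] ![0, 0, 2, 0, 1] <;> simp [bil] <;> norm_num
      · apply key _ _ ![0, 0, 0, 1, 0] ![1, 0, 0, 0, 0] ![0, 0, 2, 0, 1] <;> simp [bil] <;> norm_num
      · apply key _ _ ![0, 1, 0, 0, 0] ![1, 0, 0, 0, 0] ![0, 0, 0, 0, 1] <;> simp [bil]
      · apply key _ _ ![0, 1, 0, 0, 0] ![1, 0, 0, 0, 0] ![0, 0, 0, 0, 1] <;> simp [bil]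
    apply le_antisymm hle
    intro Y hY
    rw [wedge_expand hY]
    exact I.smul_mem _ (I.add_mem (I.add_mem (I.add_mem (I.add_mem (hall _ _) (hall _ _))
      (hall _ _)) (hall _ _)) (I.smul_mem _ (hall _ _)))

end Pool.Agent.H56R2.CL
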